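import Mathlib

/-!
# Definitions for Runge's method on two blocks of consecutive integers

`k = d * l`, roots `rt k i = 2 i + 1 - k`, `i < k` (symmetric about `0`). `bb d l n` is the coefficient of `ζ ^ n` in the series
`∏ (1 - rt k i * ζ) ^ (1/d)`; `Fh d l x = ∏ (x - rt k i) ^ (1/d)`, `Pl d l` is its polynomial part at infinity.
-/

set_option autoImplicit false

namespace Rng

/-- the binomial series of `(1 + u ζ) ^ (1/d)` -/
noncomputable def bs (d : ℕ) (u : ℤ) : PowerSeries ℚ :=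
  PowerSeries.mk fun n => Ring.choose (1 / (d : ℚ)) n * (u : ℚ) ^ n

/-- the roots -/
def rt (k i : ℕ) : ℤ := 2 * i + 1 - k

/-- the coefficients of `∏ (1 - rt k i * ζ) ^ (1/d)`, `k = d * l` -/
noncomputable def bb (d l n : ℕ) : ℚ :=
  PowerSeries.coeff n (∏ i ∈ Finset.range (d * l), bs d (-rt (d * l) i))

/-- `1` for odd `l`, `2` for even `l` -/
def tt (l : ℕ) : ℕ := if Odd l then 1 else 2

/-- `∏ (x - rt k i) ^ (1/d)` for real `x` -/
noncomputable def Fh (d l : ℕ) (x : ℝ) : ℝ :=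
  ∏ i ∈ Finset.range (d * l), (x - (rt (d * l) i : ℝ)) ^ (1 / (d : ℝ))

/-- the polynomial part of `Fh` -/
noncomputable def Pl (d l : ℕ) (x : ℝ) : ℝ :=
  ∑ n ∈ Finset.range (l + 1), (bb d l n : ℝ) * x ^ (l - n)

/-- `∏ (z - rt k i) ^ (1/d)` for complex `z`, principal powers -/
noncomputable def Fc (d l : ℕ) (z : ℂ) : ℂ :=
  ∏ i ∈ Finset.range (d * l), (z - (rt (d * l) i : ℂ)) ^ (1 / (d : ℂ))

/-- the number of roots greater than `x` -/
noncomputable def NN (k : ℕ) (x : ℝ) : ℕ := ((Finset.range k).filter fun i => x < (rt k i : ℝ)).card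

/-- `|∏ (x - rt k i)| ^ (1/d)` -/
noncomputable def hh (d k : ℕ) (x : ℝ) : ℝ := (∏ i ∈ Finset.range k, |x - (rt k i : ℝ)|) ^ (1 / (d : ℝ))

theorem rt_abs (k i : ℕ) (hi : i < k) : |(rt k i : ℝ)| ≤ (k : ℝ) - 1 := by
  unfold rt
  have h1 : ((i : ℕ) : ℝ) + 1 ≤ k := by exact_mod_cast hi
  have h2 : (0 : ℝ) ≤ i := Nat.cast_nonneg _
  push_cast
  rw [abs_le]
  constructor <;> linarith

theorem rt_reflect (k i : ℕ) (hi : i < k) : rt k (k - 1 - i) = -rt k i := by
  unfold rt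
  omega

end Rng
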