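import Pool.Agent.Lib.MP_4ae430_nt.Q.R3
import Pool.Agent.Lib.MP_4ae430_nt.R.Final

/-!
# Lengths with a common factor
-/

set_option autoImplicit false

namespace Rng

open Pool.Agent.Lib.MP_4ae430_nt

theorem common_factor (ε : ℝ) (hε : 0 < ε) :
    {x : ℕ × ℕ × ℕ × ℕ | Sol x.1 x.2.1 x.2.2.1 x.2.2.2 ∧ 2 ≤ Nat.gcd x.2.1 x.2.2.2 ∧
      ε * x.2.1 * x.2.2.2 * Real.log x.2.1 ≤
        (Nat.gcd x.2.1 x.2.2.2 : ℝ) * min (x.2.2.2 : ℝ) ((x.2.1 : ℝ) - x.2.2.2) *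
          min (x.2.2.2 : ℝ) (min ((x.2.1 : ℝ) - x.2.2.2) |(x.2.1 : ℝ) - 2 * x.2.2.2|)}.Finite := by
  refine (Rid.dichotomy (ε / 52) (by positivity)).subset ?_
  rintro ⟨m₁, k₁, m₂, k₂⟩ ⟨hsol, hg, hbig⟩
  simp only at hsol hg hbig
  refine ⟨hsol, ?_⟩
  simp only
  intro hdich
  have hkk := Rid.sol_lt hsol
  obtain ⟨h0, h1, h2, h3⟩ := hsol
  unfold B at h0
  have hR := explicit_bound m₁ k₁ m₂ k₂ (by omega) hkk hg h3 h0
  set g : ℝ := (Nat.gcd k₁ k₂ : ℝ) with hgdef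
  set M : ℝ := min (k₂ : ℝ) (min ((k₁ : ℝ) - k₂) |(k₁ : ℝ) - 2 * k₂|) with hM
  set Lg : ℝ := Real.log ((m₁ : ℝ) + k₁) with hLg
  have hkkR : (k₂ : ℝ) < k₁ := by exact_mod_cast hkk
  have hk1R : (4 : ℝ) ≤ k₁ := by exact_mod_cast h1
  have hk2R : (4 : ℝ) ≤ k₂ := by exact_mod_cast h2
  have hM0 : 0 ≤ M := le_min (by linarith) (le_min (by linarith) (abs_nonneg _))
  have hg0 : 0 ≤ g := Nat.cast_nonneg _
  have hmin : min (k₂ : ℝ) ((k₁ : ℝ) - k₂) ≤ ε / 52 * Lg := by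
    rcases hdich with h | h
    · exact (min_le_left _ _).trans h
    · exact (min_le_right _ _).trans h.1
  have hlog4 : (1.3 : ℝ) ≤ Real.log k₁ := by
    have h4 : Real.log 4 ≤ Real.log k₁ := Real.log_le_log (by norm_num) hk1R
    have h5 : Real.log 4 = 2 * Real.log 2 := by
      rw [show (4 : ℝ) = 2 ^ (2 : ℕ) by norm_num, Real.log_pow]; push_cast; ring
    have h6 := Real.log_two_gt_d9
    linarith
  have hlog6 : Real.log (6 * k₁) ≤ 3 * Real.log k₁ := by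
    rw [Real.log_mul (by norm_num) (by linarith)]
    have h4 : Real.log 6 ≤ Real.log 8 := Real.log_le_log (by norm_num) (by norm_num)
    have h5 : Real.log 8 = 3 * Real.log 2 := by
      rw [show (8 : ℝ) = 2 ^ (3 : ℕ) by norm_num, Real.log_pow]; push_cast; ring
    have h6 := Real.log_two_lt_d9
    linarith
  have h4 : g * min (k₂ : ℝ) ((k₁ : ℝ) - k₂) * M ≤ ε / 52 * (13 * k₁ * k₂ * (3 * Real.log k₁)) := by
    calc g * min (k₂ : ℝ) ((k₁ : ℝ) - k₂) * M ≤ g * (ε / 52 * Lg) * M :=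
          mul_le_mul_of_nonneg_right (mul_le_mul_of_nonneg_left hmin hg0) hM0
      _ = ε / 52 * (g * M * Lg) := by ring
      _ ≤ ε / 52 * (13 * k₁ * k₂ * Real.log (6 * k₁)) := mul_le_mul_of_nonneg_left hR (by positivity)
      _ ≤ ε / 52 * (13 * k₁ * k₂ * (3 * Real.log k₁)) := by
          refine mul_le_mul_of_nonneg_left ?_ (by positivity)
          exact mul_le_mul_of_nonneg_left hlog6 (by positivity)
  have h5 : ε / 52 * (13 * k₁ * k₂ * (3 * Real.log k₁)) = 3 / 4 * (ε * k₁ * k₂ * Real.log k₁) := by ring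
  have h6 : 0 < ε * k₁ * k₂ * Real.log k₁ := by
    have : 0 < Real.log (k₁ : ℝ) := by linarith
    have h7 : (0 : ℝ) < k₁ := by linarith
    have h8 : (0 : ℝ) < k₂ := by linarith
    positivity
  linarith

end Rng
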