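import Pool.Agent.Lib.MP_4ae430_nt.Q.Defs

set_option autoImplicit false

namespace Rng

theorem N1_cpow (a : ℂ) (ha : 0 < a.re) : ContinuousOn (fun w : ℂ => w ^ a) {w : ℂ | 0 ≤ w.im} := by
  intro w hw
  by_cases h0 : w = 0
  · subst h0
    have h1 := Complex.continuousAt_cpow_zero_of_re_pos ha
    have h2 : ContinuousAt (fun x : ℂ => (x, a)) 0 := (continuousAt_id).prodMk continuousAt_const
    have h3 : ContinuousAt ((fun x : ℂ × ℂ => x.1 ^ x.2) ∘ fun x : ℂ => (x, a)) 0 :=
      ContinuousAt.comp (g := fun x : ℂ × ℂ => x.1 ^ x.2) (f := fun x : ℂ => (x, a)) h1 h2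
    exact h3.continuousWithinAt
  by_cases hs : w ∈ Complex.slitPlane
  · exact (continuousAt_cpow_const hs).continuousWithinAt
  · have h1 : w.re ≤ 0 ∧ w.im = 0 := by
      rw [Complex.mem_slitPlane_iff] at hs
      push Not at hs
      exact hs
    have h2 : w.re < 0 := by
      rcases lt_or_eq_of_le h1.1 with h | h
      · exact h
      · exact absurd (Complex.ext h h1.2) h0
    have h3 := Complex.continuousWithinAt_log_of_re_neg_of_im_zero h2 h1.2
    have h4 : ContinuousWithinAt (fun w : ℂ => Complex.exp (Complex.log w * a)) {w : ℂ | 0 ≤ w.im} w :=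
      Complex.continuous_exp.continuousAt.comp_continuousWithinAt (h3.mul continuousWithinAt_const)
    refine h4.congr_of_eventuallyEq ?_ ?_
    · have h5 : ∀ᶠ z in nhds w, z ≠ 0 := isOpen_ne.mem_nhds h0
      filter_upwards [nhdsWithin_le_nhds h5] with z hz
      rw [Complex.cpow_def_of_ne_zero hz]
    · rw [Complex.cpow_def_of_ne_zero h0]

theorem N1_re (d : ℕ) (hd : 1 ≤ d) : 0 < (1 / (d : ℂ)).re := by
  have h1 : (1 / (d : ℂ)) = ((1 / (d : ℝ) : ℝ) : ℂ) := by push_cast; rfl
  rw [h1, Complex.ofReal_re]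
  have : (0 : ℝ) < d := by exact_mod_cast hd
  positivity

theorem Fc_continuousOn (d l : ℕ) (hd : 1 ≤ d) : ContinuousOn (Fc d l) {z : ℂ | 0 ≤ z.im} := by
  unfold Fc
  refine continuousOn_finsetProd _ fun i _ => ?_
  have h1 := N1_cpow (1 / (d : ℂ)) (N1_re d hd)
  have h2 : ContinuousOn (fun z : ℂ => z - (rt (d * l) i : ℂ)) {z : ℂ | 0 ≤ z.im} :=
    (continuous_id.sub continuous_const).continuousOn
  refine h1.comp h2 ?_
  intro z hz
  simp only [Set.mem_ofPred_eq, Complex.sub_im, Complex.intCast_im, sub_zero] at hz ⊢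
  exact hz

theorem Fc_differentiableOn (d l : ℕ) : DifferentiableOn ℂ (Fc d l) {z : ℂ | 0 < z.im} := by
  unfold Fc
  refine DifferentiableOn.fun_finsetProd fun i _ => ?_
  intro z hz
  have h1 : z - (rt (d * l) i : ℂ) ∈ Complex.slitPlane := by
    rw [Complex.mem_slitPlane_iff]
    right
    simp only [Set.mem_ofPred_eq] at hz
    rw [Complex.sub_im, Complex.intCast_im, sub_zero]
    exact hz.ne'
  have h2 : DifferentiableAt ℂ (fun z : ℂ => z - (rt (d * l) i : ℂ)) z :=
    differentiableAt_id.sub_const _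
  exact (h2.cpow_const h1).differentiableWithinAt

end Rng
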