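import Pool.Agent.Lib.MP_4ae430_nt.Q.Defs

set_option autoImplicit false

namespace Rng

private theorem N2_factor (d : ℕ) (y : ℝ) :
    (y : ℂ) ^ (1 / (d : ℂ)) = ((|y| ^ (1 / (d : ℝ)) : ℝ) : ℂ) *
      Complex.exp (if y < 0 then Real.pi / d * Complex.I else 0) := by
  have h0 : (1 / (d : ℂ)) = ((1 / (d : ℝ) : ℝ) : ℂ) := by push_cast; ring
  by_cases hy : y < 0
  · rw [if_pos hy, Complex.ofReal_cpow_of_nonpos hy.le, abs_of_neg hy, h0, ← Complex.ofReal_neg,
      Complex.ofReal_cpow (by linarith)]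
    congr 2
    push_cast
    ring
  · rw [if_neg hy, Complex.exp_zero, mul_one, abs_of_nonneg (not_lt.1 hy), h0,
      Complex.ofReal_cpow (not_lt.1 hy)]

/-- ROW 4aq-N2. For `x < u`: `(x-u)^(1/d) = |x-u|^(1/d) exp(π I / d)`; for `x = u` both sides vanish. -/
theorem Fc_real (d l : ℕ) (hd : 1 ≤ d) (x : ℝ) :
    Fc d l x = (hh d (d * l) x : ℂ) * Complex.exp (Real.pi * (NN (d * l) x : ℂ) / d * Complex.I) := by
  unfold Fc
  have h1 : ∀ i ∈ Finset.range (d * l), ((x : ℂ) - (rt (d * l) i : ℂ)) ^ (1 / (d : ℂ)) =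
      ((|x - (rt (d * l) i : ℝ)| ^ (1 / (d : ℝ)) : ℝ) : ℂ) *
        Complex.exp (if x < (rt (d * l) i : ℝ) then Real.pi / d * Complex.I else 0) := by
    intro i _
    have h2 : ((x : ℂ) - (rt (d * l) i : ℂ)) = ((x - (rt (d * l) i : ℝ) : ℝ) : ℂ) := by push_cast; ring
    rw [h2, N2_factor d]
    simp only [sub_neg]
  rw [Finset.prod_congr rfl h1, Finset.prod_mul_distrib, ← Complex.exp_sum, ← Complex.ofReal_prod]
  congr 1
  · rw [hh, Real.finsetProd_rpow _ _ fun i _ => abs_nonneg _]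
  · rw [← Finset.sum_filter, Finset.sum_const, nsmul_eq_mul, NN]
    congr 1
    ring

theorem Fc_im (d l : ℕ) (hd : 1 ≤ d) (x : ℝ) :
    (Fc d l x).im = hh d (d * l) x * Real.sin (Real.pi * NN (d * l) x / d) := by
  rw [Fc_real d l hd x]
  have h1 : (Real.pi * (NN (d * l) x : ℂ) / d * Complex.I) =
      ((Real.pi * NN (d * l) x / d : ℝ) : ℂ) * Complex.I := by push_cast; ring
  rw [h1, Complex.im_ofReal_mul, Complex.exp_ofReal_mul_I_im]

end Rng
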