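import Mathlib

set_option autoImplicit false

namespace Rng

/-- ROW 4aq-N3. Cauchy on the rectangles `[-T,T] x [0,T]` (Complex.integral_boundary_rect_eq_zero_of_continuousOn_of_differentiableOn):
the other three sides contribute at most `4 T * C / T^2`. -/
theorem rect_limit (Φ : ℂ → ℂ) (hc : ContinuousOn Φ {z : ℂ | 0 ≤ z.im})
    (hd : DifferentiableOn ℂ Φ {z : ℂ | 0 < z.im}) (C R : ℝ)
    (hΦ : ∀ z : ℂ, 0 ≤ z.im → R ≤ ‖z‖ → ‖Φ z‖ ≤ C / ‖z‖ ^ 2) :
    Filter.Tendsto (fun T : ℝ => ∫ x in (-T)..T, Φ x) Filter.atTop (nhds 0) := by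
  have key : ∀ T : ℝ, max R 1 ≤ T → ‖∫ x in (-T)..T, Φ x‖ ≤ 4 * C / T := by
    intro T hT
    have hT1 : 1 ≤ T := (le_max_right _ _).trans hT
    have hTR : R ≤ T := (le_max_left _ _).trans hT
    have hT0 : 0 < T := by linarith
    have hbd : ∀ z : ℂ, 0 ≤ z.im → T ≤ ‖z‖ → ‖Φ z‖ ≤ C / T ^ 2 := by
      intro z hz hzT
      have h1 := hΦ z hz (hTR.trans hzT)
      have hz0 : 0 < ‖z‖ := hT0.trans_le hzT
      have hC : 0 ≤ C := by
        have h2 : 0 ≤ C / ‖z‖ ^ 2 := (norm_nonneg _).trans h1
        by_contra hneg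
        have h3 : C / ‖z‖ ^ 2 < 0 := div_neg_of_neg_of_pos (not_le.1 hneg) (by positivity)
        linarith
      refine h1.trans ?_
      apply div_le_div_of_nonneg_left hC (by positivity)
      exact pow_le_pow_left₀ hT0.le hzT 2
    have hre : ∀ (x y : ℝ), |x| ≤ ‖((x : ℂ) + y * Complex.I)‖ := by
      intro x y
      have := Complex.abs_re_le_norm ((x : ℂ) + y * Complex.I)
      simpa using this
    have him : ∀ (x y : ℝ), |y| ≤ ‖((x : ℂ) + y * Complex.I)‖ := by
      intro x y
      have := Complex.abs_im_le_norm ((x : ℂ) + y * Complex.I)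
      simpa using this
    have hcauchy := Complex.integral_boundary_rect_eq_zero_of_continuousOn_of_differentiableOn Φ
      (-(T : ℂ)) ((T : ℂ) + T * Complex.I)
      (hc.mono (by
        rintro z ⟨_, hz2⟩
        simp only [Complex.neg_im, Complex.ofReal_im, neg_zero, Complex.add_im, Complex.mul_im,
          Complex.ofReal_re, Complex.I_im, mul_one, Complex.I_re, mul_zero, zero_add,
          add_zero, Set.mem_preimage, Set.uIcc_of_le hT0.le, Set.mem_Icc] at hz2
        exact hz2.1))
      (hd.mono (by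
        rintro z ⟨_, hz2⟩
        simp only [Complex.neg_im, Complex.ofReal_im, neg_zero, Complex.add_im, Complex.mul_im,
          Complex.ofReal_re, Complex.I_im, mul_one, Complex.I_re, mul_zero, zero_add,
          add_zero, Set.mem_preimage, min_eq_left hT0.le, Set.mem_Ioo] at hz2
        exact hz2.1))
    have e1 : (-(T : ℂ)).re = -T := by simp
    have e2 : (-(T : ℂ)).im = 0 := by simp
    have e3 : ((T : ℂ) + T * Complex.I).re = T := by simp
    have e4 : ((T : ℂ) + T * Complex.I).im = T := by simp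
    rw [e1, e2, e3, e4] at hcauchy
    have e5 : (∫ x in (-T)..T, Φ (x + (0 : ℝ) * Complex.I)) = ∫ x in (-T)..T, Φ x := by
      simp
    rw [e5] at hcauchy
    have b1 : ‖∫ x in (-T)..T, Φ (x + T * Complex.I)‖ ≤ C / T ^ 2 * |T - (-T)| := by
      apply intervalIntegral.norm_integral_le_of_norm_le_const
      intro x _
      apply hbd
      · simp [hT0.le]
      · have := him x T
        rwa [abs_of_pos hT0] at this
    have b2 : ‖∫ y in (0 : ℝ)..T, Φ (T + y * Complex.I)‖ ≤ C / T ^ 2 * |T - 0| := by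
      apply intervalIntegral.norm_integral_le_of_norm_le_const
      intro y hy
      rw [Set.uIoc_of_le hT0.le] at hy
      apply hbd
      · simp [hy.1.le]
      · have := hre T y
        rwa [abs_of_pos hT0] at this
    have b3 : ‖∫ y in (0 : ℝ)..T, Φ ((-T : ℝ) + y * Complex.I)‖ ≤ C / T ^ 2 * |T - 0| := by
      apply intervalIntegral.norm_integral_le_of_norm_le_const
      intro y hy
      rw [Set.uIoc_of_le hT0.le] at hy
      apply hbd
      · simp [hy.1.le]
      · have := hre (-T) y
        rwa [abs_neg, abs_of_pos hT0] at this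
    have heq : (∫ x in (-T)..T, Φ x) = (∫ x in (-T)..T, Φ (x + T * Complex.I)) -
        Complex.I • (∫ y in (0 : ℝ)..T, Φ (T + y * Complex.I)) +
        Complex.I • ∫ y in (0 : ℝ)..T, Φ ((-T : ℝ) + y * Complex.I) := by
      linear_combination hcauchy
    rw [heq]
    refine (norm_add_le _ _).trans ?_
    have h1 := norm_sub_le (∫ x in (-T)..T, Φ (x + T * Complex.I))
      (Complex.I • (∫ y in (0 : ℝ)..T, Φ (T + y * Complex.I)))
    rw [norm_smul, Complex.norm_I, one_mul] at h1
    rw [norm_smul, Complex.norm_I, one_mul]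
    have h2 : |T - (-T)| = 2 * T := by
      rw [abs_of_pos (by linarith)]
      ring
    have h3 : |T - 0| = T := by rw [sub_zero, abs_of_pos hT0]
    rw [h2] at b1
    rw [h3] at b2 b3
    have h4 : C / T ^ 2 * (2 * T) + C / T ^ 2 * T + C / T ^ 2 * T = 4 * C / T := by
      field_simp
      ring
    linarith
  rw [tendsto_zero_iff_norm_tendsto_zero]
  refine squeeze_zero' (Filter.Eventually.of_forall fun _ => norm_nonneg _)
    ((Filter.eventually_ge_atTop (max R 1)).mono key) ?_
  exact Filter.Tendsto.div_atTop tendsto_const_nhds Filter.tendsto_id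

end Rng
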