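import Pool.Agent.Lib.MP_4ae430_nt.Q.S6

set_option autoImplicit false

namespace Rng

theorem N4_arg (z : ℂ) (u : ℝ) (hz : 0 ≤ z.im) (hu : |u| < ‖z‖) :
    z.arg + (1 - (u : ℂ) * z⁻¹).arg ∈ Set.Ioc (-Real.pi) Real.pi := by
  have hz0 : z ≠ 0 := by
    rintro rfl
    rw [norm_zero] at hu
    exact absurd hu (not_lt.2 (abs_nonneg u))
  have hn : 0 < ‖z‖ := norm_pos_iff.2 hz0
  have hpi := Real.pi_pos
  have h1 : 0 ≤ z.arg := Complex.arg_nonneg_iff.2 hz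
  have h2 : z.arg ≤ Real.pi := Complex.arg_le_pi z
  have hlt : ‖(u : ℂ) * z⁻¹‖ < 1 := by
    rw [norm_mul, norm_inv, Complex.norm_real, Real.norm_eq_abs, ← div_eq_mul_inv, div_lt_one hn]
    exact hu
  have h3 : |(1 - (u : ℂ) * z⁻¹).arg| < Real.pi / 2 := by
    rw [Complex.abs_arg_lt_pi_div_two_iff]
    left
    rw [Complex.sub_re, Complex.one_re]
    have h4 := (Complex.abs_re_le_norm ((u : ℂ) * z⁻¹)).trans_lt hlt
    have h5 := (abs_lt.1 h4).2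
    linarith
  have h3' := abs_lt.1 h3
  have h4 : z - (u : ℂ) = z * (1 - (u : ℂ) * z⁻¹) := by
    field_simp
  have hne : 1 - (u : ℂ) * z⁻¹ ≠ 0 := by
    intro h0
    rw [sub_eq_zero] at h0
    rw [← h0, norm_one] at hlt
    exact lt_irrefl _ hlt
  have h5 : 0 ≤ (z - (u : ℂ)).arg := Complex.arg_nonneg_iff.2 (by
    rw [Complex.sub_im, Complex.ofReal_im, sub_zero]
    exact hz)
  have h6 : (z - (u : ℂ)).arg ≤ Real.pi := Complex.arg_le_pi _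
  have h7 := Complex.arg_mul_coe_angle hz0 hne
  rw [← h4, ← Real.Angle.coe_add, Real.Angle.angle_eq_iff_two_pi_dvd_sub] at h7
  obtain ⟨m, hm⟩ := h7
  have hm0 : m = 0 := by
    have h8 : (m : ℝ) < 1 := by
      by_contra h
      push Not at h
      nlinarith
    have h9 : (-1 : ℝ) < m := by
      by_contra h
      push Not at h
      nlinarith
    have h8' : m < 1 := by exact_mod_cast h8
    have h9' : -1 < m := by exact_mod_cast h9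
    omega
  rw [hm0, Int.cast_zero, mul_zero, sub_eq_zero] at hm
  rw [← hm]
  exact ⟨by linarith, h6⟩

theorem N4_factor (d : ℕ) (z : ℂ) (u : ℝ) (hz : 0 ≤ z.im) (hu : |u| < ‖z‖) :
    (z - (u : ℂ)) ^ (1 / (d : ℂ)) = z ^ (1 / (d : ℂ)) * (1 - (u : ℂ) * z⁻¹) ^ (1 / (d : ℂ)) := by
  have hz0 : z ≠ 0 := by
    rintro rfl
    rw [norm_zero] at hu
    exact absurd hu (not_lt.2 (abs_nonneg u))
  have hn : 0 < ‖z‖ := norm_pos_iff.2 hz0
  have hlt : ‖(u : ℂ) * z⁻¹‖ < 1 := by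
    rw [norm_mul, norm_inv, Complex.norm_real, Real.norm_eq_abs, ← div_eq_mul_inv, div_lt_one hn]
    exact hu
  have hne : 1 - (u : ℂ) * z⁻¹ ≠ 0 := by
    intro h0
    rw [sub_eq_zero] at h0
    rw [← h0, norm_one] at hlt
    exact lt_irrefl _ hlt
  have h4 : z - (u : ℂ) = z * (1 - (u : ℂ) * z⁻¹) := by
    field_simp
  rw [h4, Complex.cpow_def_of_ne_zero (mul_ne_zero hz0 hne), Complex.cpow_def_of_ne_zero hz0,
    Complex.cpow_def_of_ne_zero hne, Complex.log_mul hz0 hne (N4_arg z u hz hu), add_mul, Complex.exp_add]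

/-- ROW 4aq-N4. `(z-u)^(1/d) = z^(1/d) (1-u/z)^(1/d)` for `Im z ≥ 0`, `|u| < |z|` (arguments in `[0,π]`, `(-π/2,π/2)`, sum in `[0,π]`), and
`(z^(1/d))^(d l) = z^l`. -/
theorem Fc_eq (d l : ℕ) (hd : 1 ≤ d) (hl : 1 ≤ l) (z : ℂ) (hz : 0 ≤ z.im) (hz2 : 2 * ((d : ℝ) * l) ≤ ‖z‖) :
    Fc d l z = z ^ l * ∏ i ∈ Finset.range (d * l), (1 - (rt (d * l) i : ℂ) * z⁻¹) ^ (1 / (d : ℂ)) := by
  have hd' : (1 : ℝ) ≤ d := by exact_mod_cast hd
  have hl' : (1 : ℝ) ≤ l := by exact_mod_cast hl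
  have hdl : (1 : ℝ) ≤ (d : ℝ) * l := by nlinarith
  have h1 : ∀ i ∈ Finset.range (d * l), (z - (rt (d * l) i : ℂ)) ^ (1 / (d : ℂ)) =
      z ^ (1 / (d : ℂ)) * (1 - (rt (d * l) i : ℂ) * z⁻¹) ^ (1 / (d : ℂ)) := by
    intro i hi
    have h2 := rt_abs (d * l) i (Finset.mem_range.1 hi)
    have h3 : |((rt (d * l) i : ℤ) : ℝ)| < ‖z‖ := by
      push_cast at h2
      linarith
    have h4 := N4_factor d z ((rt (d * l) i : ℤ) : ℝ) hz h3
    rw [Complex.ofReal_intCast] at h4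
    exact h4
  unfold Fc
  rw [Finset.prod_congr rfl h1, Finset.prod_mul_distrib, Finset.prod_const, Finset.card_range, pow_mul, one_div,
    Complex.cpow_nat_inv_pow z (by omega)]

/-- uses tail -/
theorem Fc_tail (d l N : ℕ) (hd : 1 ≤ d) (hl : 1 ≤ l) (z : ℂ) (hz : 0 ≤ z.im) (hz2 : 2 * ((d : ℝ) * l) ≤ ‖z‖) :
    ‖Fc d l z - ∑ n ∈ Finset.range N, (bb d l n : ℂ) * z ^ ((l : ℤ) - n)‖ ≤
      3 ^ l * ‖z‖ ^ l * (2 * ((d : ℝ) * l) / ‖z‖) ^ N := by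
  have hd' : (1 : ℝ) ≤ d := by exact_mod_cast hd
  have hl' : (1 : ℝ) ≤ l := by exact_mod_cast hl
  have hdl : (1 : ℝ) ≤ (d : ℝ) * l := by nlinarith
  have hn : 0 < ‖z‖ := by linarith
  have hz0 : z ≠ 0 := norm_pos_iff.1 hn
  have hζ : ‖z⁻¹‖ * (2 * ((d : ℝ) * l)) ≤ 1 := by
    rw [norm_inv, inv_mul_le_iff₀ hn, mul_one]
    exact hz2
  have h1 := tail d l N hd hl z⁻¹ hζ
  have h2 : Fc d l z - ∑ n ∈ Finset.range N, (bb d l n : ℂ) * z ^ ((l : ℤ) - n) =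
      z ^ l * ((∏ i ∈ Finset.range (d * l), (1 - (rt (d * l) i : ℂ) * z⁻¹) ^ (1 / (d : ℂ))) -
        ∑ n ∈ Finset.range N, (bb d l n : ℂ) * z⁻¹ ^ n) := by
    rw [mul_sub, ← Fc_eq d l hd hl z hz hz2, Finset.mul_sum]
    congr 1
    refine Finset.sum_congr rfl fun n _ => ?_
    rw [zpow_sub₀ hz0, zpow_natCast, zpow_natCast, inv_pow]
    ring
  rw [h2, norm_mul, norm_pow]
  calc ‖z‖ ^ l * _ ≤ ‖z‖ ^ l * (3 ^ l * (‖z⁻¹‖ * (2 * ((d : ℝ) * l))) ^ N) :=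
        mul_le_mul_of_nonneg_left h1 (pow_nonneg (norm_nonneg _) _)
    _ = 3 ^ l * ‖z‖ ^ l * (2 * ((d : ℝ) * l) / ‖z‖) ^ N := by
        rw [norm_inv, inv_mul_eq_div]
        ring

end Rng
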