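import Pool.Agent.Lib.MP_4ae430_nt.Q.Defs

set_option autoImplicit false

namespace Rng

theorem NN_large (k : ℕ) (x : ℝ) (hx : (k : ℝ) ≤ x) : NN k x = 0 := by
  unfold NN
  rw [Finset.card_eq_zero, Finset.filter_eq_empty_iff]
  intro i hi
  have h1 := abs_le.1 (rt_abs k i (Finset.mem_range.1 hi))
  rw [not_lt]
  linarith [h1.2]

theorem NN_small (k : ℕ) (x : ℝ) (hx : x ≤ -(k : ℝ)) : NN k x = k := by
  unfold NN
  rw [Finset.filter_true_of_mem, Finset.card_range]
  intro i hi
  have h1 := abs_le.1 (rt_abs k i (Finset.mem_range.1 hi))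
  linarith [h1.1]

/-- `hh` is even -/
theorem N5_hh_neg (d k : ℕ) (x : ℝ) : hh d k (-x) = hh d k x := by
  unfold hh
  congr 1
  rw [← Finset.prod_range_reflect]
  refine Finset.prod_congr rfl fun i hi => ?_
  rw [Finset.mem_range] at hi
  rw [rt_reflect k i hi]
  push_cast
  rw [← abs_neg]
  congr 1
  ring

/-- number of roots below `-x` etc. -/
theorem N5_NN_neg (k : ℕ) (x : ℝ) (hne : ∀ i < k, x ≠ (rt k i : ℝ)) : NN k (-x) + NN k x = k := by
  unfold NN
  have h1 : ((Finset.range k).filter fun i => -x < (rt k i : ℝ)).card =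
      ((Finset.range k).filter fun i => ¬ x < (rt k i : ℝ)).card := by
    refine Finset.card_bij' (fun i _ => k - 1 - i) (fun i _ => k - 1 - i) ?_ ?_ ?_ ?_
    · intro i hi
      rw [Finset.mem_filter, Finset.mem_range] at hi ⊢
      refine ⟨by omega, ?_⟩
      rw [rt_reflect k i hi.1]
      push_cast
      linarith [hi.2]
    · intro i hi
      rw [Finset.mem_filter, Finset.mem_range] at hi ⊢
      refine ⟨by omega, ?_⟩
      rw [rt_reflect k i hi.1]
      push_cast
      have h2 := hne i hi.1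
      have h3 := not_lt.1 hi.2
      have h4 : (rt k i : ℝ) < x := lt_of_le_of_ne h3 (Ne.symm h2)
      linarith
    · intro i hi
      rw [Finset.mem_filter, Finset.mem_range] at hi
      omega
    · intro i hi
      rw [Finset.mem_filter, Finset.mem_range] at hi
      omega
  rw [h1, add_comm, Finset.card_filter_add_card_filter_not, Finset.card_range]

theorem symm_half (d l : ℕ) (hd : 1 ≤ d) (hl : 1 ≤ l) (x : ℝ) :
    (-x) ^ (tt l - 1) * (hh d (d * l) (-x) * Real.sin (Real.pi * NN (d * l) (-x) / d)) =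
      x ^ (tt l - 1) * (hh d (d * l) x * Real.sin (Real.pi * NN (d * l) x / d)) := by
  by_cases hroot : ∀ i < d * l, x ≠ (rt (d * l) i : ℝ)
  · have h1 := N5_NN_neg (d * l) x hroot
    have hdR : (d : ℝ) ≠ 0 := by
      have : (0 : ℝ) < d := by exact_mod_cast hd
      exact this.ne'
    have h2 : Real.pi * (NN (d * l) (-x) : ℝ) / d = (l : ℝ) * Real.pi - Real.pi * (NN (d * l) x : ℝ) / d := by
      have h3 : (NN (d * l) (-x) : ℝ) = (d : ℝ) * l - NN (d * l) x := by
        have h4 : ((NN (d * l) (-x) + NN (d * l) x : ℕ) : ℝ) = ((d * l : ℕ) : ℝ) := by rw [h1]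
        push_cast at h4
        linarith
      rw [h3]
      field_simp
    rw [h2, Real.sin_sub, Real.sin_nat_mul_pi, Real.cos_nat_mul_pi, N5_hh_neg]
    rcases Nat.even_or_odd l with hl' | hl'
    · have ht : tt l = 2 := by unfold tt; rw [if_neg (Nat.not_odd_iff_even.2 hl')]
      rw [ht, hl'.neg_one_pow]
      ring
    · have ht : tt l = 1 := by unfold tt; rw [if_pos hl']
      rw [ht, hl'.neg_one_pow]
      ring
  · push Not at hroot
    obtain ⟨i, hi, hx⟩ := hroot
    have h0 : hh d (d * l) x = 0 := by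
      unfold hh
      have h1 : ∏ j ∈ Finset.range (d * l), |x - (rt (d * l) j : ℝ)| = 0 :=
        Finset.prod_eq_zero (Finset.mem_range.2 hi) (by rw [hx]; simp)
      rw [h1, Real.zero_rpow]
      have : (0 : ℝ) < d := by exact_mod_cast hd
      positivity
    rw [N5_hh_neg, h0]
    ring

end Rng
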