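import Mathlib

set_option autoImplicit false

namespace Rng

/-- Closed form of the sine sums. -/
theorem N6b_closed (a : ℝ) (n : ℕ) :
    Real.sin a * ∑ j ∈ Finset.range n, Real.sin (2 * a * ((j + 1 : ℕ) : ℝ)) =
      Real.sin (a * n) * Real.sin (a * (n + 1)) := by
  induction n with
  | zero => simp
  | succ n ih =>
    rw [Finset.sum_range_succ, mul_add, ih]
    have h1 : Real.sin (2 * a * ((n + 1 : ℕ) : ℝ)) =
        2 * Real.sin (a * (n + 1)) * Real.cos (a * (n + 1)) := by
      rw [← Real.sin_two_mul]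
      congr 1
      push_cast
      ring
    have h2 : Real.sin (a * (((n + 1 : ℕ) : ℝ) + 1)) =
        Real.sin (a * (n + 1)) * Real.cos a + Real.cos (a * (n + 1)) * Real.sin a := by
      rw [← Real.sin_add]
      congr 1
      push_cast
      ring
    have h3 : Real.sin (a * n) =
        Real.sin (a * (n + 1)) * Real.cos a - Real.cos (a * (n + 1)) * Real.sin a := by
      rw [← Real.sin_sub]
      congr 1
      ring
    have h4 : a * (((n + 1 : ℕ) : ℝ)) = a * (n + 1) := by push_cast; ring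
    rw [h1, h2, h3, h4]
    ring

/-- The product of two neighbouring sines is nonnegative. -/
theorem N6b_nonneg (d n : ℕ) (hd : 2 ≤ d) :
    0 ≤ Real.sin (Real.pi / (2 * d) * n) * Real.sin (Real.pi / (2 * d) * (n + 1)) := by
  have hd0 : (0 : ℝ) < d := by
    have : 0 < d := by omega
    exact_mod_cast this
  have hpi := Real.pi_pos
  obtain ⟨q, r, hr, hn⟩ : ∃ q r : ℕ, r < 2 * d ∧ n = 2 * d * q + r :=
    ⟨n / (2 * d), n % (2 * d), Nat.mod_lt _ (by omega), (Nat.div_add_mod n (2 * d)).symm⟩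
  have hr' : (r : ℝ) + 1 ≤ 2 * d := by exact_mod_cast hr
  have e1 : Real.pi / (2 * d) * n = Real.pi / (2 * d) * r + (q : ℝ) * Real.pi := by
    rw [hn]
    push_cast
    field_simp
    ring
  have e2 : Real.pi / (2 * d) * (n + 1) = Real.pi / (2 * d) * (r + 1) + (q : ℝ) * Real.pi := by
    rw [hn]
    push_cast
    field_simp
    ring
  rw [e1, e2, Real.sin_add_nat_mul_pi, Real.sin_add_nat_mul_pi]
  have h1 : 0 ≤ Real.sin (Real.pi / (2 * d) * r) := by
    apply Real.sin_nonneg_of_nonneg_of_le_pi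
    · positivity
    · have : Real.pi / (2 * d) * r ≤ Real.pi / (2 * d) * (2 * d) :=
        mul_le_mul_of_nonneg_left (by linarith) (by positivity)
      have h' : Real.pi / (2 * d) * (2 * d) = Real.pi := by field_simp
      linarith
  have h2 : 0 ≤ Real.sin (Real.pi / (2 * d) * (r + 1)) := by
    apply Real.sin_nonneg_of_nonneg_of_le_pi
    · positivity
    · have : Real.pi / (2 * d) * (r + 1) ≤ Real.pi / (2 * d) * (2 * d) :=
        mul_le_mul_of_nonneg_left (by linarith) (by positivity)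
      have h' : Real.pi / (2 * d) * (2 * d) = Real.pi := by field_simp
      linarith
  have h3 : (-1 : ℝ) ^ q * Real.sin (Real.pi / (2 * d) * r) *
      ((-1) ^ q * Real.sin (Real.pi / (2 * d) * (r + 1))) =
      Real.sin (Real.pi / (2 * d) * r) * Real.sin (Real.pi / (2 * d) * (r + 1)) := by
    have : (-1 : ℝ) ^ q * (-1) ^ q = 1 := by
      rw [← mul_pow]; norm_num
    calc _ = ((-1 : ℝ) ^ q * (-1) ^ q) * (Real.sin (Real.pi / (2 * d) * r) *
          Real.sin (Real.pi / (2 * d) * (r + 1))) := by ring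
      _ = _ := by rw [this, one_mul]
  rw [h3]
  exact mul_nonneg h1 h2

/-- The sine sums are nonnegative. -/
theorem N6b_sum_nonneg (d n : ℕ) (hd : 2 ≤ d) :
    0 ≤ ∑ j ∈ Finset.range n, Real.sin (Real.pi * ((j + 1 : ℕ) : ℝ) / d) := by
  have hd0 : (2 : ℝ) ≤ d := by exact_mod_cast hd
  have hpi := Real.pi_pos
  have h := N6b_closed (Real.pi / (2 * d)) n
  have hs : 0 < Real.sin (Real.pi / (2 * d)) := by
    apply Real.sin_pos_of_pos_of_lt_pi
    · positivity
    · rw [div_lt_iff₀ (by positivity)]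
      nlinarith
  have he : ∑ j ∈ Finset.range n, Real.sin (Real.pi * ((j + 1 : ℕ) : ℝ) / d) =
      ∑ j ∈ Finset.range n, Real.sin (2 * (Real.pi / (2 * d)) * ((j + 1 : ℕ) : ℝ)) := by
    apply Finset.sum_congr rfl
    intro j _
    congr 1
    field_simp
  rw [he]
  have h' := N6b_nonneg d n hd
  rw [← h] at h'
  exact nonneg_of_mul_nonneg_right h' hs

/-- ROW 4aq-N6b. Abel summation with `S j = ∑_{i ≤ j} sin(π i/d) = sin(π j/(2d)) sin(π (j+1)/(2d)) / sin(π/(2d)) ≥ 0`, `S 1 > 0`. -/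
theorem abel_pos (d J : ℕ) (hd : 2 ≤ d) (I : ℕ → ℝ) (hI : ∀ j, 1 ≤ j → I (j + 1) ≤ I j) (hI0 : ∀ j, 0 ≤ I j)
    (h1 : I 2 < I 1) (hJ : 1 ≤ J) : 0 < ∑ j ∈ Finset.range J, Real.sin (Real.pi * ((j + 1 : ℕ) : ℝ) / d) * I (j + 1) := by
  have hd0 : (2 : ℝ) ≤ d := by exact_mod_cast hd
  have hpi := Real.pi_pos
  have hs : 0 < Real.sin (Real.pi * ((0 + 1 : ℕ) : ℝ) / d) := by
    apply Real.sin_pos_of_pos_of_lt_pi
    · positivity
    · rw [div_lt_iff₀ (by positivity)]
      push_cast
      nlinarith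
  have key : ∀ n : ℕ, Real.sin (Real.pi * ((0 + 1 : ℕ) : ℝ) / d) * (I 1 - I 2) +
      (∑ j ∈ Finset.range (n + 2), Real.sin (Real.pi * ((j + 1 : ℕ) : ℝ) / d)) * I (n + 2) ≤
      ∑ j ∈ Finset.range (n + 2), Real.sin (Real.pi * ((j + 1 : ℕ) : ℝ) / d) * I (j + 1) := by
    intro n
    induction n with
    | zero =>
      simp only [Finset.sum_range_succ, Finset.sum_range_zero, zero_add]
      apply le_of_eq
      ring
    | succ n ih =>
      rw [Finset.sum_range_succ _ (n + 2), Finset.sum_range_succ _ (n + 2)]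
      have hS := N6b_sum_nonneg d (n + 2) hd
      have hm := hI (n + 2) (by omega)
      have e : n + 1 + 2 = n + 2 + 1 := by ring
      have := mul_le_mul_of_nonneg_left hm hS
      rw [show I (n + 1 + 2) = I (n + 2 + 1) by rw [e]]
      linarith
  obtain ⟨n, rfl⟩ | rfl : (∃ n, J = n + 2) ∨ J = 1 := by
    rcases Nat.lt_or_ge J 2 with h | h
    · right; omega
    · left; exact ⟨J - 2, by omega⟩
  · have h2 := mul_nonneg (N6b_sum_nonneg d (n + 2) hd) (hI0 (n + 2))
    have h3 := mul_pos hs (sub_pos.2 h1)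
    have := key n
    linarith
  · rw [Finset.sum_range_one]
    exact mul_pos hs (lt_of_le_of_lt (hI0 2) h1)

end Rng
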