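import Pool.Agent.Lib.MP_4ae430_nt.Q.N6a
import Pool.Agent.Lib.MP_4ae430_nt.Q.N6b
import Pool.Agent.Lib.MP_4ae430_nt.Q.N2
import Pool.Agent.Lib.MP_4ae430_nt.Q.N1

set_option autoImplicit false

namespace Rng

open MeasureTheory intervalIntegral Set

theorem N6_hh_cont (d k : ℕ) : Continuous (hh d k) := by
  unfold hh
  refine Continuous.rpow_const ?_ ?_
  · refine continuous_finsetProd _ fun i _ => ?_
    exact (continuous_id.sub continuous_const).abs
  · intro x
    right
    positivity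

theorem N6_hh_nonneg (d k : ℕ) (x : ℝ) : 0 ≤ hh d k x := by
  unfold hh
  exact Real.rpow_nonneg (Finset.prod_nonneg fun i _ => abs_nonneg _) _

theorem N6_hh_ne (d k : ℕ) (x : ℝ) (hx : ∀ i < k, x ≠ (rt k i : ℝ)) : hh d k x ≠ 0 := by
  unfold hh
  have h : 0 < ∏ i ∈ Finset.range k, |x - (rt k i : ℝ)| :=
    Finset.prod_pos fun i hi => abs_pos.mpr (sub_ne_zero.mpr (hx i (Finset.mem_range.mp hi)))
  exact (Real.rpow_pos_of_pos h _).ne'

/-- the point `k - 2` is not a root -/
theorem N6_notroot (d k : ℕ) : hh d k ((k : ℝ) - 2) ≠ 0 := by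
  refine N6_hh_ne d k _ fun i hi h => ?_
  have h' : ((k : ℤ) - 2 : ℤ) = rt k i := by
    have : (((k : ℤ) - 2 : ℤ) : ℝ) = ((rt k i : ℤ) : ℝ) := by push_cast; exact h
    exact_mod_cast this
  unfold rt at h'
  omega

/-- cut points -/
noncomputable def N6_a (k j : ℕ) : ℝ := max 0 ((k : ℝ) - 1 - 2 * j)

theorem N6_a_nonneg (k j : ℕ) : 0 ≤ N6_a k j := le_max_left _ _

theorem N6_a_anti (k j : ℕ) : N6_a k (j + 1) ≤ N6_a k j := by
  unfold N6_a
  refine max_le_max le_rfl ?_
  push_cast
  linarith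

theorem N6_a_le (k j : ℕ) (hk : 1 ≤ k) : N6_a k j ≤ (k : ℝ) - 1 := by
  unfold N6_a
  have h1 : (1 : ℝ) ≤ k := by exact_mod_cast hk
  have h2 : (0 : ℝ) ≤ j := Nat.cast_nonneg _
  refine max_le ?_ ?_ <;> linarith

theorem N6_a_zero (k : ℕ) (hk : 1 ≤ k) : N6_a k 0 = (k : ℝ) - 1 := by
  unfold N6_a
  have h1 : (1 : ℝ) ≤ k := by exact_mod_cast hk
  rw [max_eq_right] <;> simp [h1]

theorem N6_a_last (k : ℕ) : N6_a k k = 0 := by
  unfold N6_a
  have h2 : (0 : ℝ) ≤ k := Nat.cast_nonneg _
  rw [max_eq_left]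
  linarith

/-- the weight -/
noncomputable def N6_phi (d k t : ℕ) (x : ℝ) : ℝ := x ^ t * hh d k x

theorem N6_phi_cont (d k t : ℕ) : Continuous (N6_phi d k t) := by
  unfold N6_phi
  exact (continuous_pow t).mul (N6_hh_cont d k)

theorem N6_phi_nonneg (d k t : ℕ) (x : ℝ) (hx : 0 ≤ x) : 0 ≤ N6_phi d k t x :=
  mul_nonneg (pow_nonneg hx t) (N6_hh_nonneg d k x)

theorem N6_phi_mono (d k t : ℕ) (hd : 1 ≤ d) (x : ℝ) (hx : 2 ≤ x) (hxk : x ≤ k) :
    N6_phi d k t (x - 2) ≤ N6_phi d k t x := by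
  unfold N6_phi
  refine mul_le_mul ?_ (hh_mono d k hd x hx hxk) (N6_hh_nonneg d k _) (by positivity)
  exact pow_le_pow_left₀ (by linarith) (by linarith) t

theorem N6_phi_strict (d k t : ℕ) (hd : 1 ≤ d) (x : ℝ) (hx : 2 ≤ x) (hxk : x ≤ k) (hne : hh d k x ≠ 0) :
    N6_phi d k t (x - 2) < N6_phi d k t x := by
  unfold N6_phi
  have h1 : (x - 2) ^ t ≤ x ^ t := pow_le_pow_left₀ (by linarith) (by linarith) t
  have h2 := hh_mono_strict d k hd x hx hxk hne
  have h3 : 0 < x ^ t := by positivity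
  calc (x - 2) ^ t * hh d k (x - 2) ≤ x ^ t * hh d k (x - 2) :=
        mul_le_mul_of_nonneg_right h1 (N6_hh_nonneg d k _)
    _ < x ^ t * hh d k x := mul_lt_mul_of_pos_left h2 h3

/-- the pieces -/
noncomputable def N6_I (d k t j : ℕ) : ℝ := ∫ x in (N6_a k j)..(N6_a k (j - 1)), N6_phi d k t x

theorem N6_I_nonneg (d k t j : ℕ) : 0 ≤ N6_I d k t j := by
  unfold N6_I
  refine intervalIntegral.integral_nonneg ?_ fun x hx => N6_phi_nonneg d k t x ((N6_a_nonneg k j).trans hx.1)
  rcases j with _ | j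
  · simp
  · exact N6_a_anti k j

theorem N6_I_shift (d k t j : ℕ) (_hd : 1 ≤ d) (_hk : 1 ≤ k) (hpos : 0 < N6_a k (j + 1)) :
    N6_I d k t (j + 2) = ∫ x in (N6_a k (j + 2) + 2)..(N6_a k j), N6_phi d k t (x - 2) := by
  unfold N6_I
  have h1 : N6_a k (j + 2 - 1) = N6_a k j - 2 := by
    have e : j + 2 - 1 = j + 1 := by omega
    rw [e]
    have h : 0 < (k : ℝ) - 1 - 2 * ((j + 1 : ℕ) : ℝ) := by
      by_contra hcon
      unfold N6_a at hpos
      rw [max_eq_left (not_lt.mp hcon)] at hpos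
      exact lt_irrefl _ hpos
    unfold N6_a
    push_cast at h ⊢
    rw [max_eq_right h.le, max_eq_right (by linarith)]
    ring
  rw [intervalIntegral.integral_comp_sub_right (fun x => N6_phi d k t x) 2, h1]
  congr 1
  ring

theorem N6_shift_bounds (k j : ℕ) (hpos : 0 < N6_a k (j + 1)) :
    N6_a k (j + 1) ≤ N6_a k (j + 2) + 2 ∧ N6_a k (j + 2) + 2 < N6_a k j ∧ (k : ℝ) - 1 - 2 * ((j + 1 : ℕ) : ℝ) > 0 := by
  have h : 0 < (k : ℝ) - 1 - 2 * ((j + 1 : ℕ) : ℝ) := by
    by_contra hcon
    unfold N6_a at hpos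
    rw [max_eq_left (not_lt.mp hcon)] at hpos
    exact lt_irrefl _ hpos
  refine ⟨?_, ?_, h⟩
  · unfold N6_a
    push_cast at h ⊢
    rw [max_eq_right h.le]
    have := le_max_right (0 : ℝ) ((k : ℝ) - 1 - 2 * ((j : ℝ) + 2))
    linarith
  · unfold N6_a
    push_cast at h ⊢
    rw [max_eq_right (show (0 : ℝ) ≤ (k : ℝ) - 1 - 2 * (j : ℝ) by linarith)]
    have : max (0 : ℝ) ((k : ℝ) - 1 - 2 * ((j : ℝ) + 2)) < (k : ℝ) - 1 - 2 * (j : ℝ) - 2 := by
      rw [max_lt_iff]
      constructor <;> linarith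
    linarith

theorem N6_I_anti (d k t j : ℕ) (hd : 1 ≤ d) (hk : 1 ≤ k) : N6_I d k t (j + 2) ≤ N6_I d k t (j + 1) := by
  rcases (N6_a_nonneg k (j + 1)).eq_or_lt with h0 | hpos
  · have h2 : N6_a k (j + 2) = 0 := le_antisymm (h0 ▸ N6_a_anti k (j + 1)) (N6_a_nonneg _ _)
    have : N6_I d k t (j + 2) = 0 := by
      unfold N6_I
      have e : j + 2 - 1 = j + 1 := by omega
      rw [e, h2, ← h0]
      simp
    rw [this]
    exact N6_I_nonneg d k t (j + 1)
  · obtain ⟨b1, b2, _⟩ := N6_shift_bounds k j hpos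
    rw [N6_I_shift d k t j hd hk hpos]
    have hc := N6_phi_cont d k t
    have hc2 : Continuous fun x => N6_phi d k t (x - 2) := hc.comp (continuous_id.sub continuous_const)
    have s1 : (∫ x in (N6_a k (j + 2) + 2)..(N6_a k j), N6_phi d k t (x - 2)) ≤
        ∫ x in (N6_a k (j + 2) + 2)..(N6_a k j), N6_phi d k t x := by
      refine intervalIntegral.integral_mono_on b2.le (hc2.intervalIntegrable _ _) (hc.intervalIntegrable _ _) ?_
      intro x hx
      refine N6_phi_mono d k t hd x ?_ ?_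
      · have := N6_a_nonneg k (j + 2)
        linarith [hx.1]
      · have := N6_a_le k j hk
        linarith [hx.2]
    refine s1.trans ?_
    unfold N6_I
    have e : j + 1 - 1 = j := by omega
    rw [e]
    have s2 := intervalIntegral.integral_add_adjacent_intervals
      (hc.intervalIntegrable (μ := volume) (N6_a k (j + 1)) (N6_a k (j + 2) + 2))
      (hc.intervalIntegrable (μ := volume) (N6_a k (j + 2) + 2) (N6_a k j))
    have s3 : 0 ≤ ∫ x in (N6_a k (j + 1))..(N6_a k (j + 2) + 2), N6_phi d k t x :=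
      intervalIntegral.integral_nonneg b1 fun x hx => N6_phi_nonneg d k t x ((N6_a_nonneg k (j + 1)).trans hx.1)
    linarith

theorem N6_I_strict (d k t : ℕ) (hd : 1 ≤ d) (hk : 2 ≤ k) : N6_I d k t 2 < N6_I d k t 1 := by
  have hk' : (2 : ℝ) ≤ k := by exact_mod_cast hk
  have hc := N6_phi_cont d k t
  rcases (N6_a_nonneg k 1).eq_or_lt with h0 | hpos
  · have h2 : N6_a k 2 = 0 := le_antisymm (h0 ▸ N6_a_anti k 1) (N6_a_nonneg _ _)
    have h3 : N6_I d k t 2 = 0 := by
      unfold N6_I
      have e : 2 - 1 = 1 := by omega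
      rw [e, h2, ← h0]
      simp
    rw [h3]
    unfold N6_I
    have e : 1 - 1 = 0 := by omega
    rw [e, N6_a_zero k (by omega), ← h0]
    -- `k ≤ 3`
    have hk3 : (k : ℝ) ≤ 3 := by
      by_contra hcon
      have : 0 < N6_a k 1 := by
        unfold N6_a
        rw [lt_max_iff]
        right
        push_cast
        linarith [not_le.mp hcon]
      linarith
    have hk3' : k ≤ 3 := by exact_mod_cast hk3
    have key := intervalIntegral.integral_lt_integral_of_continuousOn_of_le_of_exists_lt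
      (f := fun _ => (0 : ℝ)) (g := N6_phi d k t) (a := 0) (b := (k : ℝ) - 1) (by linarith)
      continuousOn_const hc.continuousOn (fun x hx => N6_phi_nonneg d k t x hx.1.le) ?_
    · simpa using key
    · -- a point which is not a root, positive
      refine ⟨1 / 2, ⟨by norm_num, by linarith⟩, ?_⟩
      have : hh d k (1 / 2) ≠ 0 := by
        refine N6_hh_ne d k _ fun i hi h => ?_
        have h' : (1 : ℤ) = 2 * rt k i := by
          have : ((1 : ℤ) : ℝ) = ((2 * rt k i : ℤ) : ℝ) := by push_cast; rw [← h]; norm_num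
          exact_mod_cast this
        omega
      have hp : 0 < hh d k (1 / 2) := lt_of_le_of_ne (N6_hh_nonneg d k _) (Ne.symm this)
      unfold N6_phi
      positivity
  · obtain ⟨b1, b2, b3⟩ := N6_shift_bounds k 0 hpos
    have hk4 : 4 ≤ k := by
      have : (3 : ℝ) < k := by
        push_cast at b3
        linarith
      exact_mod_cast this
    have hk4' : (4 : ℝ) ≤ k := by exact_mod_cast hk4
    rw [N6_I_shift d k t 0 hd (by omega) hpos]
    have hc2 : Continuous fun x => N6_phi d k t (x - 2) := hc.comp (continuous_id.sub continuous_const)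
    have s1 : (∫ x in (N6_a k (0 + 2) + 2)..(N6_a k 0), N6_phi d k t (x - 2)) <
        ∫ x in (N6_a k (0 + 2) + 2)..(N6_a k 0), N6_phi d k t x := by
      refine intervalIntegral.integral_lt_integral_of_continuousOn_of_le_of_exists_lt b2
        hc2.continuousOn hc.continuousOn ?_ ?_
      · intro x hx
        refine N6_phi_mono d k t hd x ?_ ?_
        · have := N6_a_nonneg k (0 + 2)
          linarith [hx.1]
        · have := N6_a_le k 0 (by omega)
          linarith [hx.2]
      · refine ⟨(k : ℝ) - 2, ⟨?_, ?_⟩, ?_⟩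
        · have : N6_a k (0 + 2) ≤ (k : ℝ) - 4 := by
            unfold N6_a
            refine max_le (by linarith) ?_
            push_cast
            linarith
          linarith
        · rw [N6_a_zero k (by omega)]
          linarith
        · exact N6_phi_strict d k t hd _ (by linarith) (by linarith) (N6_notroot d k)
    refine s1.trans_le ?_
    unfold N6_I
    have e : 1 - 1 = 0 := by omega
    rw [e]
    have s2 := intervalIntegral.integral_add_adjacent_intervals
      (hc.intervalIntegrable (μ := volume) (N6_a k (0 + 1)) (N6_a k (0 + 2) + 2))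
      (hc.intervalIntegrable (μ := volume) (N6_a k (0 + 2) + 2) (N6_a k 0))
    have s3 : 0 ≤ ∫ x in (N6_a k (0 + 1))..(N6_a k (0 + 2) + 2), N6_phi d k t x :=
      intervalIntegral.integral_nonneg b1 fun x hx => N6_phi_nonneg d k t x ((N6_a_nonneg k (0 + 1)).trans hx.1)
    have e2 : 0 + 1 = 1 := by omega
    rw [e2] at s2 s3
    linarith

theorem N6_piece (d k t j : ℕ) (hj : j < k) :
    (∫ x in (N6_a k (j + 1))..(N6_a k j), x ^ t * (hh d k x * Real.sin (Real.pi * NN k x / d))) =
      Real.sin (Real.pi * ((j + 1 : ℕ) : ℝ) / d) * N6_I d k t (j + 1) := by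
  unfold N6_I
  have e : j + 1 - 1 = j := by omega
  rw [e, ← intervalIntegral.integral_const_mul]
  refine intervalIntegral.integral_congr_Ioo_of_le (N6_a_anti k j) ?_
  intro x hx
  have hx1 := hx.1
  have hx2 := hx.2
  have hx0 : 0 < x := (N6_a_nonneg k (j + 1)).trans_lt hx1
  have h1 : (k : ℝ) - 1 - 2 * ((j + 1 : ℕ) : ℝ) < x := (le_max_right _ _).trans_lt hx1
  have h2 : x < (k : ℝ) - 1 - 2 * (j : ℝ) := by
    unfold N6_a at hx2
    rcases lt_max_iff.mp hx2 with h | h
    · linarith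
    · exact h
  have hN : NN k x = j + 1 := by
    refine NN_eq k (j + 1) x hj h1.le ?_
    push_cast
    linarith
  show x ^ t * (hh d k x * Real.sin (Real.pi * NN k x / d)) =
    Real.sin (Real.pi * ((j + 1 : ℕ) : ℝ) / d) * N6_phi d k t x
  rw [hN]
  unfold N6_phi
  ring

theorem N6_last (d k t : ℕ) :
    (∫ x in ((k : ℝ) - 1)..(k : ℝ), x ^ t * (hh d k x * Real.sin (Real.pi * NN k x / d))) = 0 := by
  have : (∫ x in ((k : ℝ) - 1)..(k : ℝ), x ^ t * (hh d k x * Real.sin (Real.pi * NN k x / d))) =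
      ∫ _x in ((k : ℝ) - 1)..(k : ℝ), (0 : ℝ) := by
    refine intervalIntegral.integral_congr_Ioo_of_le (by linarith) ?_
    intro x hx
    have hN : NN k x = 0 := by
      refine NN_eq k 0 x (Nat.zero_le _) ?_ ?_
      · push_cast
        linarith [hx.1]
      · push_cast
        linarith [hx.2]
    show x ^ t * (hh d k x * Real.sin (Real.pi * NN k x / d)) = 0
    rw [hN]
    simp
  rw [this]
  simp

theorem N6_cont (d l : ℕ) (hd : 1 ≤ d) (t : ℕ) :
    Continuous fun x : ℝ => x ^ t * (hh d (d * l) x * Real.sin (Real.pi * NN (d * l) x / d)) := by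
  have h1 : Continuous fun x : ℝ => Fc d l (x : ℂ) := by
    have h := Fc_continuousOn d l hd
    rw [← continuousOn_univ]
    refine h.comp Complex.continuous_ofReal.continuousOn ?_
    intro x _
    simp
  have h2 : (fun x : ℝ => x ^ t * (hh d (d * l) x * Real.sin (Real.pi * NN (d * l) x / d))) =
      fun x : ℝ => x ^ t * (Fc d l (x : ℂ)).im := by
    funext x
    rw [Fc_im d l hd x]
  rw [h2]
  exact (continuous_pow t).mul (Complex.continuous_im.comp h1)

/-- ROW 4aq-N6 (uses hh_mono, NN_eq, abel_pos; integrability: the integrand is `x^(t-1) * (Fc d l x).im`, continuous). Cut `[0,k]` at the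
points `k+1-2j`: `I j = ∫ x^(t-1) hh` over `[max 0 (k-1-2j), max 0 (k+1-2j)]`, decreasing in `j ≥ 1` by hh_mono (shift by 2), `I 1 > I 2`;
`NN = j` there; `j = 0` contributes `0`. -/
theorem int_pos (d l : ℕ) (hd : 2 ≤ d) (hl : 1 ≤ l) (t : ℕ) :
    0 < ∫ x in (0 : ℝ)..((d * l : ℕ) : ℝ), x ^ t * (hh d (d * l) x * Real.sin (Real.pi * NN (d * l) x / d)) := by
  have hcont := N6_cont d l (by omega) t
  have hk : 2 ≤ d * l := by nlinarith
  generalize d * l = k at hcont hk ⊢
  have hsplit := intervalIntegral.integral_add_adjacent_intervals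
    (hcont.intervalIntegrable (μ := volume) 0 ((k : ℝ) - 1)) (hcont.intervalIntegrable (μ := volume) ((k : ℝ) - 1) (k : ℝ))
  rw [N6_last d k t, add_zero] at hsplit
  rw [← hsplit]
  have hsum := intervalIntegral.sum_integral_adjacent_intervals (μ := volume) (a := fun j => N6_a k j) (n := k)
    (f := fun x : ℝ => x ^ t * (hh d k x * Real.sin (Real.pi * NN k x / d)))
    (fun j _ => hcont.intervalIntegrable _ _)
  simp only [N6_a_last k, N6_a_zero k (by omega)] at hsum
  rw [intervalIntegral.integral_symm, ← hsum, ← Finset.sum_neg_distrib]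
  have habel := abel_pos d k hd (fun j => N6_I d k t j)
    (fun j hj => by
      obtain ⟨i, rfl⟩ : ∃ i, j = i + 1 := ⟨j - 1, by omega⟩
      exact N6_I_anti d k t i (by omega) (by omega))
    (fun j => N6_I_nonneg d k t j) (N6_I_strict d k t (by omega) hk) (by omega)
  refine habel.trans_eq (Finset.sum_congr rfl fun j hj => ?_)
  rw [← intervalIntegral.integral_symm, N6_piece d k t j (Finset.mem_range.mp hj)]

end Rng
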