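import Pool.Agent.Lib.MP_4ae430_nt.Q.Defs

set_option autoImplicit false

namespace Rng

theorem N6a_tele (k : ℕ) (x : ℝ) :
    (∏ i ∈ Finset.range k, |x - 2 - (rt k i : ℝ)|) * |x + k - 1| =
      (∏ i ∈ Finset.range k, |x - (rt k i : ℝ)|) * |x - k - 1| := by
  have h1 : ∀ i : ℕ, x - 2 - (rt k i : ℝ) = x - (rt k (i + 1) : ℝ) := by
    intro i; unfold rt; push_cast; ring
  have h0 : x + k - 1 = x - (rt k 0 : ℝ) := by unfold rt; push_cast; ring
  have hk : x - k - 1 = x - (rt k k : ℝ) := by unfold rt; push_cast; ring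
  rw [h0, hk, ← Finset.prod_range_succ (fun i => |x - (rt k i : ℝ)|) k,
    Finset.prod_range_succ' (fun i => |x - (rt k i : ℝ)|) k]
  congr 1
  exact Finset.prod_congr rfl fun i _ => by rw [h1]

theorem N6a_nonneg (k : ℕ) (x : ℝ) : 0 ≤ ∏ i ∈ Finset.range k, |x - (rt k i : ℝ)| :=
  Finset.prod_nonneg fun _ _ => abs_nonneg _

theorem N6a_nonneg' (k : ℕ) (x : ℝ) : 0 ≤ ∏ i ∈ Finset.range k, |x - 2 - (rt k i : ℝ)| :=
  Finset.prod_nonneg fun _ _ => abs_nonneg _

/-- ROW 4aq-N6a. `∏ |x-2-rt i| * |x+k-1| = ∏ |x-rt i| * |x-k-1|` (telescoping, `rt i + 2 = rt (i+1)`), and `|x+k-1| ≥ |x-k-1|` for `1 ≤ x ≤ k+1`,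
strictly for `x > 1`. -/
theorem hh_mono (d k : ℕ) (hd : 1 ≤ d) (x : ℝ) (hx : 2 ≤ x) (hxk : x ≤ k) : hh d k (x - 2) ≤ hh d k x := by
  unfold hh
  refine Real.rpow_le_rpow (N6a_nonneg' k x) ?_ (by positivity)
  have h := N6a_tele k x
  have e1 : |x + k - 1| = x + k - 1 := abs_of_nonneg (by linarith)
  have e2 : |x - k - 1| = k + 1 - x := by rw [abs_of_nonpos (by linarith)]; ring
  rw [e1, e2] at h
  have hB := N6a_nonneg k x
  have hpos : 0 < x + k - 1 := by linarith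
  refine le_of_mul_le_mul_right ?_ hpos
  rw [h]
  exact mul_le_mul_of_nonneg_left (by linarith) hB

theorem hh_mono_strict (d k : ℕ) (hd : 1 ≤ d) (x : ℝ) (hx : 2 ≤ x) (hxk : x ≤ k) (hne : hh d k x ≠ 0) :
    hh d k (x - 2) < hh d k x := by
  have hd' : (0 : ℝ) < 1 / (d : ℝ) := by
    have : (0 : ℝ) < d := by exact_mod_cast hd
    positivity
  have hB : 0 < ∏ i ∈ Finset.range k, |x - (rt k i : ℝ)| := by
    rcases (N6a_nonneg k x).lt_or_eq with h | h
    · exact h
    · exfalso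
      apply hne
      unfold hh
      rw [← h, Real.zero_rpow hd'.ne']
  unfold hh
  refine Real.rpow_lt_rpow (N6a_nonneg' k x) ?_ hd'
  have h := N6a_tele k x
  have e1 : |x + k - 1| = x + k - 1 := abs_of_nonneg (by linarith)
  have e2 : |x - k - 1| = k + 1 - x := by rw [abs_of_nonpos (by linarith)]; ring
  rw [e1, e2] at h
  have hpos : 0 < x + k - 1 := by linarith
  refine lt_of_mul_lt_mul_right ?_ hpos.le
  rw [h]
  exact mul_lt_mul_of_pos_left (by linarith) hB

/-- `NN k x = j` for `k - 1 - 2 j ≤ x < k + 1 - 2 j`, `0 ≤ x < k`, `j < k` (the roots greater than `x` are `k-1, k-3, ..., k+1-2j`) -/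
theorem NN_eq (k j : ℕ) (x : ℝ) (hj : j ≤ k) (h1 : (k : ℝ) - 1 - 2 * j ≤ x) (h2 : x < (k : ℝ) + 1 - 2 * j) : NN k x = j := by
  unfold NN
  have hf : (Finset.range k).filter (fun i => x < (rt k i : ℝ)) = Finset.Ico (k - j) k := by
    ext i
    simp only [Finset.mem_filter, Finset.mem_range, Finset.mem_Ico]
    constructor
    · rintro ⟨hi, hx⟩
      refine ⟨?_, hi⟩
      by_contra hc
      have hc' : i + j + 1 ≤ k := by omega
      have hc'' : (i : ℝ) + j + 1 ≤ k := by exact_mod_cast hc'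
      unfold rt at hx
      push_cast at hx
      linarith
    · rintro ⟨h3, h4⟩
      refine ⟨h4, ?_⟩
      have h5 : k ≤ i + j := by omega
      have h6 : (k : ℝ) ≤ i + j := by exact_mod_cast h5
      unfold rt
      push_cast
      linarith
  rw [hf, Nat.card_Ico]
  omega

end Rng
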