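import Pool.Agent.Lib.MP_4ae430_nt.Q.Defs

set_option autoImplicit false

namespace Rng

theorem S5_rescale (d : ℕ) (u : ℤ) : PowerSeries.rescale (-1 : ℚ) (bs d u) = bs d (-u) := by
  ext n
  rw [PowerSeries.coeff_rescale]
  simp only [bs, PowerSeries.coeff_mk]
  push_cast
  rw [neg_pow (u : ℚ) n]
  ring

theorem S5_prod (d k : ℕ) :
    PowerSeries.rescale (-1 : ℚ) (∏ i ∈ Finset.range k, bs d (-rt k i)) =
      ∏ i ∈ Finset.range k, bs d (-rt k i) := by
  rw [map_prod, ← Finset.prod_range_reflect (fun i => bs d (-rt k i)) k]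
  refine Finset.prod_congr rfl fun i hi => ?_
  rw [S5_rescale, rt_reflect k i (Finset.mem_range.mp hi)]

/-- ROW 4aq-S5. `rescale (-1)` of `bs d u` is `bs d (-u)`; the set of roots is symmetric (rt_reflect, Finset.prod_range_reflect). -/
theorem bb_odd (d l n : ℕ) (hn : Odd n) : bb d l n = 0 := by
  have h := congrArg (PowerSeries.coeff n) (S5_prod d (d * l))
  rw [PowerSeries.coeff_rescale, hn.neg_one_pow] at h
  unfold bb
  linarith

end Rng
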