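import Pool.Agent.Lib.MP_4ae430_nt.Q.N3
import Pool.Agent.Lib.MP_4ae430_nt.Q.N4
import Pool.Agent.Lib.MP_4ae430_nt.Q.N5
import Pool.Agent.Lib.MP_4ae430_nt.Q.N6
import Pool.Agent.Lib.MP_4ae430_nt.Q.S5

/-!
# The first coefficient at infinity does not vanish
-/

set_option autoImplicit false

namespace Rng

theorem tt_pos (l : ℕ) : 1 ≤ tt l := by
  unfold tt
  split_ifs <;> omega

theorem tt_le (l : ℕ) : tt l ≤ 2 := by
  unfold tt
  split_ifs <;> omega

theorem bb_vanish (d l n : ℕ) (h : n % 2 = 1) : bb d l n = 0 := bb_odd d l n (Nat.odd_iff.2 h)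

/-- NV -/
theorem nv (d l : ℕ) (hd : 2 ≤ d) (hl : 1 ≤ l) : bb d l (l + tt l) ≠ 0 := by
  intro h0
  have hd1 : 1 ≤ d := by omega
  set k : ℕ := d * l with hk
  have hk1 : 1 ≤ k := Nat.mul_pos hd1 hl
  have hkR : (1 : ℝ) ≤ (k : ℝ) := by exact_mod_cast hk1
  have hkcast : ((d : ℝ) * l) = (k : ℝ) := by rw [hk]; push_cast; ring
  -- the function
  set s : ℕ := tt l - 1 with hs
  let P : ℂ → ℂ := fun z => ∑ n ∈ Finset.range (l + 1), (bb d l n : ℂ) * z ^ (l - n)
  let Φ : ℂ → ℂ := fun z => z ^ s * (Fc d l z - P z)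
  have hPc : Continuous P := by
    refine continuous_finsetSum _ fun n _ => ?_
    exact continuous_const.mul (continuous_pow _)
  have hPd : Differentiable ℂ P := by
    refine Differentiable.fun_sum fun n _ => ?_
    exact (differentiable_const _).mul (differentiable_id.pow _)
  have hΦc : ContinuousOn Φ {z : ℂ | 0 ≤ z.im} :=
    (continuous_pow s).continuousOn.mul ((Fc_continuousOn d l hd1).sub hPc.continuousOn)
  have hΦd : DifferentiableOn ℂ Φ {z : ℂ | 0 < z.im} :=
    (differentiable_id.pow s).differentiableOn.mul ((Fc_differentiableOn d l).sub hPd.differentiableOn)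
  -- decay
  set N : ℕ := l + 2 + (s) with hN
  have hPz : ∀ z : ℂ, z ≠ 0 → ∑ n ∈ Finset.range N, (bb d l n : ℂ) * z ^ ((l : ℤ) - n) = P z := by
    intro z hz
    have h1 : Finset.range (l + 1) ⊆ Finset.range N := Finset.range_subset_range.2 (by omega)
    have h2 : ∑ n ∈ Finset.range N, (bb d l n : ℂ) * z ^ ((l : ℤ) - n) =
        ∑ n ∈ Finset.range (l + 1), (bb d l n : ℂ) * z ^ ((l : ℤ) - n) := by
      refine (Finset.sum_subset h1 fun n hn hn' => ?_).symm
      rw [Finset.mem_range] at hn hn'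
      have h3 : bb d l n = 0 := by
        have ht := tt_pos l
        rcases Nat.even_or_odd l with he | ho
        · have h4 : tt l = 2 := by unfold tt; rw [if_neg (Nat.not_odd_iff_even.2 he)]
          have h5 : n = l + 1 ∨ n = l + 2 := by omega
          rcases h5 with h5 | h5
          · rw [h5]; exact bb_vanish d l _ (by have := Nat.even_iff.1 he; omega)
          · rw [h5, ← h4]; exact h0
        · have h4 : tt l = 1 := by unfold tt; rw [if_pos ho]
          have h5 : n = l + 1 := by omega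
          rw [h5, ← h4]; exact h0
      rw [h3]; simp
    rw [h2]
    refine Finset.sum_congr rfl fun n hn => ?_
    rw [Finset.mem_range] at hn
    congr 1
    rw [show ((l : ℤ) - n) = ((l - n : ℕ) : ℤ) by omega, zpow_natCast]
  have hdecay : ∀ z : ℂ, 0 ≤ z.im → 2 * (k : ℝ) ≤ ‖z‖ → ‖Φ z‖ ≤ (3 ^ l * (2 * (k : ℝ)) ^ N) / ‖z‖ ^ 2 := by
    intro z hz hz2
    have hzpos : 0 < ‖z‖ := by linarith
    have hz0 : z ≠ 0 := norm_pos_iff.1 hzpos
    have h1 := Fc_tail d l N hd1 hl z hz (by rw [hkcast]; exact hz2)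
    rw [hPz z hz0, hkcast] at h1
    have h2 : ‖Φ z‖ = ‖z‖ ^ s * ‖Fc d l z - P z‖ := by
      simp only [Φ]; rw [norm_mul, norm_pow]
    rw [h2]
    calc ‖z‖ ^ s * ‖Fc d l z - P z‖ ≤ ‖z‖ ^ s * (3 ^ l * ‖z‖ ^ l * (2 * (k : ℝ) / ‖z‖) ^ N) :=
          mul_le_mul_of_nonneg_left h1 (by positivity)
      _ = (3 ^ l * (2 * (k : ℝ)) ^ N) / ‖z‖ ^ 2 := by
          rw [div_pow, hN, pow_add ‖z‖ (l + 2) s, pow_add ‖z‖ l 2]
          field_simp
  have hlim := rect_limit Φ hΦc hΦd _ (2 * (k : ℝ)) hdecay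
  -- imaginary part
  have hreal : ∀ x : ℝ, (P x).im = 0 := by
    intro x
    have : P (x : ℂ) = ((∑ n ∈ Finset.range (l + 1), (bb d l n : ℝ) * x ^ (l - n) : ℝ) : ℂ) := by
      simp only [P]; push_cast; rfl
    rw [this, Complex.ofReal_im]
  have him : ∀ x : ℝ, (Φ x).im = x ^ s * (hh d k x * Real.sin (Real.pi * NN k x / d)) := by
    intro x
    simp only [Φ]
    rw [← Complex.ofReal_pow, Complex.im_ofReal_mul, Complex.sub_im, hreal, sub_zero, Fc_im d l hd1]
  have hcont : Continuous fun x : ℝ => Φ x := by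
    have h1 := hΦc.comp_continuous (f := fun x : ℝ => (x : ℂ)) Complex.continuous_ofReal (fun x => by
      show 0 ≤ ((x : ℂ)).im
      rw [Complex.ofReal_im])
    exact h1
  set J : ℝ := ∫ x in (0 : ℝ)..(k : ℝ), x ^ s * (hh d k x * Real.sin (Real.pi * NN k x / d)) with hJ
  have hJpos : 0 < J := int_pos d l hd hl s
  set g : ℝ → ℝ := fun x => x ^ s * (hh d k x * Real.sin (Real.pi * NN k x / d)) with hg
  have hgc : Continuous g := by
    have : g = fun x : ℝ => (Φ x).im := by funext x; rw [him]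
    rw [this]
    exact Complex.continuous_im.comp hcont
  have hsym : ∀ x, g (-x) = g x := fun x => symm_half d l hd1 hl x
  have hT : ∀ T : ℝ, (k : ℝ) ≤ T → (∫ x in (-T)..T, Φ x).im = 2 * J := by
    intro T hTk
    have h1 : (∫ x in (-T)..T, Φ x).im = ∫ x in (-T)..T, g x := by
      have h2 := Complex.imCLM.intervalIntegral_comp_comm (μ := MeasureTheory.volume)
        (hcont.intervalIntegrable (-T) T)
      rw [Complex.imCLM_apply] at h2
      rw [← h2]
      refine intervalIntegral.integral_congr fun x _ => ?_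
      simp only [Complex.imCLM_apply]
      rw [him]
    rw [h1]
    have h3 : ∫ x in (-T)..T, g x = (∫ x in (-T)..0, g x) + ∫ x in (0 : ℝ)..T, g x :=
      (intervalIntegral.integral_add_adjacent_intervals (hgc.intervalIntegrable _ _)
        (hgc.intervalIntegrable _ _)).symm
    have h4 : ∫ x in (-T)..0, g x = ∫ x in (0 : ℝ)..T, g x := by
      have h5 := intervalIntegral.integral_comp_neg (f := g) (a := 0) (b := T)
      rw [neg_zero] at h5
      rw [← h5]
      exact intervalIntegral.integral_congr fun x _ => hsym x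
    have h6 : ∫ x in (0 : ℝ)..T, g x = J + ∫ x in (k : ℝ)..T, g x :=
      (intervalIntegral.integral_add_adjacent_intervals (hgc.intervalIntegrable _ _)
        (hgc.intervalIntegrable _ _)).symm
    have h7 : ∫ x in (k : ℝ)..T, g x = 0 := by
      have h8 : ∫ x in (k : ℝ)..T, g x = ∫ _x in (k : ℝ)..T, (0 : ℝ) := by
        refine intervalIntegral.integral_congr fun x hx => ?_
        rw [Set.uIcc_of_le hTk] at hx
        simp only [hg]
        rw [NN_large k x hx.1]
        simp
      rw [h8, intervalIntegral.integral_zero]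
    rw [h3, h4, h6, h7]
    ring
  have hlim2 : Filter.Tendsto (fun T : ℝ => (∫ x in (-T)..T, Φ x).im) Filter.atTop (nhds 0) := by
    have h1 := (Complex.continuous_im.tendsto 0).comp hlim
    rw [Complex.zero_im] at h1
    exact h1
  have hlim3 : Filter.Tendsto (fun T : ℝ => (∫ x in (-T)..T, Φ x).im) Filter.atTop (nhds (2 * J)) := by
    refine tendsto_const_nhds.congr' ?_
    filter_upwards [Filter.eventually_ge_atTop (k : ℝ)] with T hTk
    exact (hT T hTk).symm
  have := tendsto_nhds_unique hlim2 hlim3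
  linarith

end Rng
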