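import Pool.Agent.Lib.MP_4ae430_nt.Q.Defs

set_option autoImplicit false

namespace Rng

theorem R1a_const (d l : ℕ) (hd : 1 ≤ d) (y : ℝ) (hy : 0 ≤ y) :
    ∏ _i ∈ Finset.range (d * l), y ^ (1 / (d : ℝ)) = y ^ l := by
  have hd0 : (d : ℝ) ≠ 0 := by positivity
  rw [Finset.prod_const, Finset.card_range, ← Real.rpow_natCast, ← Real.rpow_mul hy,
    ← Real.rpow_natCast]
  congr 1
  push_cast
  field_simp

theorem R1a_Icc (m k : ℕ) : ∏ i ∈ Finset.Icc 1 k, (m + i) = ∏ i ∈ Finset.range k, (m + (k - i)) := by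
  have h1 : ∏ i ∈ Finset.Icc 1 k, (m + i) = ∏ i ∈ Finset.range k, (m + (i + 1)) := by
    induction k with
    | zero => simp
    | succ n ih => rw [Finset.prod_Icc_succ_top (by omega), ih, Finset.prod_range_succ]
  rw [h1, ← Finset.prod_range_reflect]
  refine Finset.prod_congr rfl fun i hi => ?_
  rw [Finset.mem_range] at hi
  congr 1
  omega

/-- ROW 4aq-R1a. `x/2 ≤ x - rt ≤ 2x` for `x ≥ 2k`, and `(y^(1/d))^(d l) = y^l`. -/
theorem Fh_size (d l : ℕ) (hd : 1 ≤ d) (x : ℝ) (hx : 2 * ((d : ℝ) * l) ≤ x) (hx0 : 0 < x) :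
    (x / 2) ^ l ≤ Fh d l x ∧ Fh d l x ≤ (2 * x) ^ l := by
  have hb : ∀ i ∈ Finset.range (d * l), x / 2 ≤ x - (rt (d * l) i : ℝ) ∧
      x - (rt (d * l) i : ℝ) ≤ 2 * x := by
    intro i hi
    have h1 := rt_abs (d * l) i (Finset.mem_range.1 hi)
    push_cast at h1
    rw [abs_le] at h1
    constructor <;> linarith [h1.1, h1.2]
  have he : (0 : ℝ) ≤ 1 / (d : ℝ) := by positivity
  constructor
  · rw [← R1a_const d l hd (x / 2) (by positivity)]
    unfold Fh
    refine Finset.prod_le_prod (fun i _ => by positivity) fun i hi => ?_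
    exact Real.rpow_le_rpow (by positivity) (hb i hi).1 he
  · rw [← R1a_const d l hd (2 * x) (by positivity)]
    unfold Fh
    refine Finset.prod_le_prod (fun i hi => ?_) fun i hi => ?_
    · exact Real.rpow_nonneg (le_trans (by positivity) (hb i hi).1) _
    · exact Real.rpow_le_rpow (le_trans (by positivity) (hb i hi).1) (hb i hi).2 he

/-- the blocks: `∏_{i=1}^{k} (m+i) = 2^(-k) ∏ (x - rt k i)` with `x = 2 m + k + 1`, so `Fh d l x = 2^l * B^(1/d)` -/
theorem Fh_block (d l m : ℕ) (hd : 1 ≤ d) :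
    Fh d l ((2 * m + d * l + 1 : ℕ) : ℝ) = 2 ^ l * ((∏ i ∈ Finset.Icc 1 (d * l), (m + i) : ℕ) : ℝ) ^ (1 / (d : ℝ)) := by
  rw [R1a_Icc, ← R1a_const d l hd 2 (by norm_num)]
  push_cast
  rw [← Real.finsetProd_rpow _ _ (fun i _ => by positivity), ← Finset.prod_mul_distrib]
  unfold Fh
  refine Finset.prod_congr rfl fun i hi => ?_
  rw [Finset.mem_range] at hi
  rw [← Real.mul_rpow (by norm_num) (by positivity)]
  congr 1
  unfold rt
  push_cast [Nat.cast_sub hi.le]
  ring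

end Rng
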