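import Mathlib

set_option autoImplicit false

namespace Rng

theorem S1_smeval {R : Type*} [CommRing R] (r : R) (n : ℕ) :
    (descPochhammer ℤ n).smeval r = ∏ i ∈ Finset.range n, (r - (i : R)) := by
  induction n with
  | zero => simp
  | succ n ih =>
    rw [descPochhammer_succ_right, Polynomial.smeval_mul, Polynomial.smeval_sub, Polynomial.smeval_X,
      Finset.prod_range_succ, ih, Polynomial.smeval_natCast]
    simp

theorem S1_fac {R : Type*} [CommRing R] [BinomialRing R] (r : R) (n : ℕ) :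
    (n.factorial : R) * Ring.choose r n = ∏ i ∈ Finset.range n, (r - (i : R)) := by
  rw [← S1_smeval, Ring.descPochhammer_eq_factorial_smul_choose, nsmul_eq_mul]

/-- the part of `n!` prime to `d` -/
theorem S1_split (d n : ℕ) (hd : 1 ≤ d) :
    ∃ A B : ℕ, n.factorial = A * B ∧ A ∣ d ^ n ∧ Nat.Coprime B d := by
  have hn : n.factorial ≠ 0 := n.factorial_ne_zero
  have hdn : d ^ n ≠ 0 := pow_ne_zero _ (by omega)
  obtain ⟨B, hB⟩ := Nat.gcd_dvd_left n.factorial (d ^ n)
  refine ⟨Nat.gcd n.factorial (d ^ n), B, hB, Nat.gcd_dvd_right _ _, ?_⟩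
  rw [Nat.coprime_iff_gcd_eq_one]
  by_contra hne
  obtain ⟨p, hp, hpd⟩ := Nat.exists_prime_and_dvd hne
  have hpB : p ∣ B := hpd.trans (Nat.gcd_dvd_left _ _)
  have hpd' : p ∣ d := hpd.trans (Nat.gcd_dvd_right _ _)
  have : Fact p.Prime := ⟨hp⟩
  have hv : padicValNat p n.factorial ≤ n := by
    have h1 := sub_one_mul_padicValNat_factorial (p := p) n
    have h2 : 1 ≤ p - 1 := by have := hp.two_le; omega
    calc padicValNat p n.factorial = 1 * padicValNat p n.factorial := (one_mul _).symm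
      _ ≤ (p - 1) * padicValNat p n.factorial := Nat.mul_le_mul_right _ h2
      _ = n - (p.digits n).sum := h1
      _ ≤ n := Nat.sub_le _ _
  have h3 : p ^ padicValNat p n.factorial ∣ Nat.gcd n.factorial (d ^ n) := by
    refine Nat.dvd_gcd pow_padicValNat_dvd ?_
    exact (pow_dvd_pow p hv).trans (pow_dvd_pow_of_dvd hpd' n)
  have h4 : p ^ (padicValNat p n.factorial + 1) ∣ n.factorial := by
    rw [hB, pow_succ]
    have := mul_dvd_mul h3 hpB
    rwa [← hB] at this ⊢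
  exact pow_succ_padicValNat_not_dvd hn h4

theorem S1_dvd (d n : ℕ) (hd : 1 ≤ d) :
    ((n.factorial : ℕ) : ℤ) ∣ (d : ℤ) ^ n * ∏ i ∈ Finset.range n, (1 - (i : ℤ) * d) := by
  obtain ⟨A, B, hAB, hA, hB⟩ := S1_split d n hd
  rw [hAB]
  push_cast
  refine mul_dvd_mul (by exact_mod_cast hA) ?_
  have hco : IsCoprime (B : ℤ) (d : ℤ) := Nat.isCoprime_iff_coprime.2 hB
  obtain ⟨u, v, huv⟩ := hco
  -- u * B + v * d = 1
  have h1 : (B : ℤ) ∣ (∏ i ∈ Finset.range n, (1 - (i : ℤ) * d)) - ∏ i ∈ Finset.range n, (v * d - (i : ℤ) * d) := by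
    rw [← Int.modEq_iff_dvd]
    refine Int.ModEq.symm ?_
    have : ∀ s : Finset ℕ, (∏ i ∈ s, (1 - (i : ℤ) * d)) ≡ (∏ i ∈ s, (v * d - (i : ℤ) * d)) [ZMOD (B : ℤ)] := by
      intro s
      induction s using Finset.induction_on with
      | empty => simp [Int.ModEq]
      | insert a s ha ih =>
        rw [Finset.prod_insert ha, Finset.prod_insert ha]
        refine Int.ModEq.mul ?_ ih
        rw [Int.modEq_iff_dvd]
        exact ⟨-u, by linear_combination huv⟩
    exact this _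
  have h2 : ∏ i ∈ Finset.range n, (v * d - (i : ℤ) * d) = (d : ℤ) ^ n * ((n.factorial : ℤ) * Ring.choose v n) := by
    rw [S1_fac]
    calc ∏ i ∈ Finset.range n, (v * d - (i : ℤ) * d) = ∏ i ∈ Finset.range n, ((d : ℤ) * (v - (i : ℤ))) :=
          Finset.prod_congr rfl fun i _ => by ring
      _ = _ := by rw [Finset.prod_mul_distrib, Finset.prod_const, Finset.card_range]
  have h3 : (B : ℤ) ∣ ∏ i ∈ Finset.range n, (v * d - (i : ℤ) * d) := by
    rw [h2, hAB]
    push_cast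
    exact ⟨(d : ℤ) ^ n * A * Ring.choose v n, by ring⟩
  have := dvd_add h1 h3
  rwa [sub_add_cancel] at this

/-- ROW 4aq-S1. `choose (1/d) n * d^(2n) = (∏_{i<n} (1 - i d)) * d^n / n!`. Write `n! = A * B` with `gcd B d = 1`, `A ∣ d ^ n`
(valuations of `n!` are `< n`), and with `e d = 1 mod B`: `∏ (1 - i d) = d^n ∏ (e - i) = d^n n! (e choose n) = 0 mod B`. -/
theorem choose_int (d n : ℕ) (hd : 1 ≤ d) : ∃ z : ℤ, (d : ℚ) ^ (2 * n) * Ring.choose (1 / (d : ℚ)) n = z := by
  obtain ⟨z, hz⟩ := S1_dvd d n hd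
  refine ⟨z, ?_⟩
  have hd0 : (d : ℚ) ≠ 0 := by
    have : d ≠ 0 := by omega
    exact_mod_cast this
  have hf : (n.factorial : ℚ) ≠ 0 := by exact_mod_cast n.factorial_ne_zero
  have h1 := S1_fac (1 / (d : ℚ)) n
  have h2 : (d : ℚ) ^ n * ∏ i ∈ Finset.range n, (1 / (d : ℚ) - (i : ℚ)) = ∏ i ∈ Finset.range n, (1 - (i : ℚ) * d) := by
    have : (d : ℚ) ^ n = ∏ _i ∈ Finset.range n, (d : ℚ) := by rw [Finset.prod_const, Finset.card_range]
    rw [this, ← Finset.prod_mul_distrib]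
    refine Finset.prod_congr rfl fun i _ => ?_
    field_simp
  have hz' : (d : ℚ) ^ n * ∏ i ∈ Finset.range n, (1 - (i : ℚ) * d) = (n.factorial : ℚ) * z := by
    have := congrArg (fun t : ℤ => (t : ℚ)) hz
    push_cast at this
    exact this
  have h4 : (n.factorial : ℚ) * ((d : ℚ) ^ (2 * n) * Ring.choose (1 / (d : ℚ)) n) = (n.factorial : ℚ) * z := by
    rw [← hz', ← h2, ← h1]
    ring
  exact mul_left_cancel₀ hf h4

end Rng
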