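import Pool.Agent.Lib.MP_4ae430_nt.Q.Defs
import Pool.Agent.Lib.MP_4ae430_nt.Q.S1

set_option autoImplicit false

namespace Rng

private theorem S2_mul {d : ℕ} {f g : PowerSeries ℚ}
    (hf : ∀ n, ∃ z : ℤ, (d : ℚ) ^ (2 * n) * PowerSeries.coeff n f = z)
    (hg : ∀ n, ∃ z : ℤ, (d : ℚ) ^ (2 * n) * PowerSeries.coeff n g = z) (n : ℕ) :
    ∃ z : ℤ, (d : ℚ) ^ (2 * n) * PowerSeries.coeff n (f * g) = z := by
  choose a ha using hf
  choose b hb using hg
  refine ⟨∑ x ∈ Finset.HasAntidiagonal.antidiagonal n, a x.1 * b x.2, ?_⟩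
  rw [PowerSeries.coeff_mul, Finset.mul_sum]
  push_cast
  refine Finset.sum_congr rfl fun x hx => ?_
  rw [Finset.HasAntidiagonal.mem_antidiagonal] at hx
  rw [← ha, ← hb, ← hx]
  ring

/-- ROW 4aq-S2 (uses choose_int). `PowerSeries.rescale (d^2)` of each factor has integral coefficients, so has the product. -/
theorem bb_int (d l n : ℕ) (hd : 1 ≤ d) : ∃ z : ℤ, (d : ℚ) ^ (2 * n) * bb d l n = z := by
  have h1 : ∀ (u : ℤ) (n : ℕ), ∃ z : ℤ, (d : ℚ) ^ (2 * n) * PowerSeries.coeff n (bs d u) = z := by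
    intro u n
    obtain ⟨z, hz⟩ := choose_int d n hd
    refine ⟨z * u ^ n, ?_⟩
    unfold bs
    rw [PowerSeries.coeff_mk, ← mul_assoc, hz]
    push_cast
    rfl
  have h2 : ∀ (m n : ℕ), ∃ z : ℤ, (d : ℚ) ^ (2 * n) *
      PowerSeries.coeff n (∏ i ∈ Finset.range m, bs d (-rt (d * l) i)) = z := by
    intro m
    induction m with
    | zero =>
      intro n
      rw [Finset.prod_range_zero, PowerSeries.coeff_one]
      by_cases hn : n = 0
      · subst hn
        exact ⟨1, by simp⟩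
      · exact ⟨0, by simp [hn]⟩
    | succ m ih =>
      intro n
      rw [Finset.prod_range_succ]
      exact S2_mul ih (h1 _) n
  exact h2 (d * l) n

theorem bb_zero (d l : ℕ) : bb d l 0 = 1 := by
  unfold bb
  rw [PowerSeries.coeff_zero_eq_constantCoeff_apply, map_prod]
  refine Finset.prod_eq_one fun i _ => ?_
  unfold bs
  rw [← PowerSeries.coeff_zero_eq_constantCoeff_apply, PowerSeries.coeff_mk]
  simp

end Rng
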