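import Pool.Agent.Lib.MP_4ae430_nt.Q.S6

set_option autoImplicit false

namespace Rng

theorem S7_pos (d l i : ℕ) (hi : i < d * l) (x : ℝ) (hx : 2 * ((d : ℝ) * l) ≤ x) :
    0 < 1 - (rt (d * l) i : ℝ) * (1 / x) := by
  have h := rt_abs (d * l) i hi
  have h1 : (1 : ℝ) ≤ (d : ℝ) * l := by
    have : 1 ≤ d * l := by omega
    exact_mod_cast this
  have hx0 : 0 < x := by linarith
  have h2 : (rt (d * l) i : ℝ) < x := by
    have h3 := (abs_le.mp h).2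
    push_cast at h3
    linarith
  have h4 : (rt (d * l) i : ℝ) * (1 / x) < 1 := by
    rw [mul_one_div, div_lt_one hx0]
    exact h2
  linarith

theorem S7_Fh (d l : ℕ) (hd : 1 ≤ d) (hl : 1 ≤ l) (x : ℝ) (hx : 2 * ((d : ℝ) * l) ≤ x) :
    Fh d l x = x ^ l * ∏ i ∈ Finset.range (d * l), (1 - (rt (d * l) i : ℝ) * (1 / x)) ^ (1 / (d : ℝ)) := by
  have h1 : (1 : ℝ) ≤ (d : ℝ) * l := by
    have : 1 ≤ d * l := Nat.mul_pos hd hl
    exact_mod_cast this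
  have hx0 : 0 < x := by linarith
  have hd0 : (d : ℝ) ≠ 0 := by
    have : (0 : ℝ) < d := by exact_mod_cast hd
    exact this.ne'
  have h2 : x ^ l = ∏ _i ∈ Finset.range (d * l), x ^ (1 / (d : ℝ)) := by
    rw [Finset.prod_const, Finset.card_range, ← Real.rpow_natCast, ← Real.rpow_natCast,
      ← Real.rpow_mul hx0.le]
    congr 1
    push_cast
    field_simp
  unfold Fh
  rw [h2, ← Finset.prod_mul_distrib]
  refine Finset.prod_congr rfl fun i hi => ?_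
  have hp := S7_pos d l i (Finset.mem_range.mp hi) x hx
  rw [← Real.mul_rpow hx0.le hp.le]
  congr 1
  field_simp

theorem S7_cast (d l : ℕ) (x : ℝ) (hx : 2 * ((d : ℝ) * l) ≤ x) :
    (∏ i ∈ Finset.range (d * l), (1 - (rt (d * l) i : ℂ) * ((1 / x : ℝ) : ℂ)) ^ (1 / (d : ℂ))) =
      ((∏ i ∈ Finset.range (d * l), (1 - (rt (d * l) i : ℝ) * (1 / x)) ^ (1 / (d : ℝ)) : ℝ) : ℂ) := by
  rw [Complex.ofReal_prod]
  refine Finset.prod_congr rfl fun i hi => ?_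
  have hp := S7_pos d l i (Finset.mem_range.mp hi) x hx
  rw [Complex.ofReal_cpow hp.le]
  push_cast
  rfl

/-- ROW 4aq-S7 (uses tail with `ζ = 1/x`). `Fh d l x = x^l ∏ (1 - rt/x)^(1/d)` for `x ≥ 2k` (Real.rpow, cast to `ℂ`). -/
theorem Fh_tail (d l N : ℕ) (hd : 1 ≤ d) (hl : 1 ≤ l) (x : ℝ) (hx : 2 * ((d : ℝ) * l) ≤ x) :
    |Fh d l x - ∑ n ∈ Finset.range N, (bb d l n : ℝ) * x ^ ((l : ℤ) - n)| ≤
      3 ^ l * x ^ l * (2 * ((d : ℝ) * l) / x) ^ N := by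
  have h1 : (1 : ℝ) ≤ (d : ℝ) * l := by
    have : 1 ≤ d * l := Nat.mul_pos hd hl
    exact_mod_cast this
  have hx0 : 0 < x := by linarith
  have hn : ‖((1 / x : ℝ) : ℂ)‖ = 1 / x := by
    rw [Complex.norm_real, Real.norm_eq_abs, abs_of_pos (by positivity)]
  have hζ : ‖((1 / x : ℝ) : ℂ)‖ * (2 * ((d : ℝ) * l)) ≤ 1 := by
    rw [hn, one_div, inv_mul_le_iff₀ hx0]
    linarith
  have key := tail d l N hd hl ((1 / x : ℝ) : ℂ) hζ
  rw [S7_cast d l x hx] at key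
  have hsum : (∑ n ∈ Finset.range N, (bb d l n : ℂ) * ((1 / x : ℝ) : ℂ) ^ n) =
      ((∑ n ∈ Finset.range N, (bb d l n : ℝ) * (1 / x) ^ n : ℝ) : ℂ) := by
    push_cast
    rfl
  rw [hsum, ← Complex.ofReal_sub, Complex.norm_real, Real.norm_eq_abs, hn] at key
  have hF : Fh d l x - ∑ n ∈ Finset.range N, (bb d l n : ℝ) * x ^ ((l : ℤ) - n) =
      x ^ l * ((∏ i ∈ Finset.range (d * l), (1 - (rt (d * l) i : ℝ) * (1 / x)) ^ (1 / (d : ℝ))) -
        ∑ n ∈ Finset.range N, (bb d l n : ℝ) * (1 / x) ^ n) := by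
    rw [S7_Fh d l hd hl x hx, mul_sub, Finset.mul_sum]
    congr 1
    refine Finset.sum_congr rfl fun n _ => ?_
    rw [zpow_sub₀ hx0.ne', zpow_natCast, zpow_natCast, one_div, inv_pow]
    ring
  rw [hF, abs_mul, abs_of_pos (pow_pos hx0 l)]
  calc x ^ l * |(∏ i ∈ Finset.range (d * l), (1 - (rt (d * l) i : ℝ) * (1 / x)) ^ (1 / (d : ℝ))) -
        ∑ n ∈ Finset.range N, (bb d l n : ℝ) * (1 / x) ^ n|
      ≤ x ^ l * (3 ^ l * (1 / x * (2 * ((d : ℝ) * l))) ^ N) :=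
        mul_le_mul_of_nonneg_left key (pow_pos hx0 l).le
    _ = 3 ^ l * x ^ l * (2 * ((d : ℝ) * l) / x) ^ N := by
        rw [show 1 / x * (2 * ((d : ℝ) * l)) = 2 * ((d : ℝ) * l) / x by ring]
        ring

end Rng
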