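import Pool.Agent.Lib.MP_4ae430_nt.Q.N7
import Pool.Agent.Lib.MP_4ae430_nt.Q.S2
import Pool.Agent.Lib.MP_4ae430_nt.Q.S7
import Pool.Agent.Lib.MP_4ae430_nt.Q.R1a

/-!
# Runge's method
-/

set_option autoImplicit false

namespace Rng

/-- size of `E = Fh - Pl` at infinity -/
theorem E_bounds (d l : ℕ) (hd : 2 ≤ d) (hl : 1 ≤ l) (K : ℝ) (hK : 6 * ((d : ℝ) * l) ≤ K) (x : ℝ)
    (hx : K ^ (11 * l) ≤ x) :
    1 ≤ |Fh d l x - Pl d l x| * x ^ tt l * K ^ (7 * l) ∧ |Fh d l x - Pl d l x| * x ^ tt l ≤ K ^ (3 * l) := by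
  have hd1 : 1 ≤ d := by omega
  have hdR : (2 : ℝ) ≤ d := by exact_mod_cast hd
  have hlR : (1 : ℝ) ≤ l := by exact_mod_cast hl
  have hdl : (2 : ℝ) ≤ (d : ℝ) * l := by nlinarith
  have hK12 : (12 : ℝ) ≤ K := by linarith
  have hK1 : (1 : ℝ) ≤ K := by linarith
  have hKx : K ≤ x := by
    calc K = K ^ 1 := (pow_one K).symm
      _ ≤ K ^ (11 * l) := pow_le_pow_right₀ hK1 (by omega)
      _ ≤ x := hx
  have hx2 : 2 * ((d : ℝ) * l) ≤ x := by linarith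
  have hxpos : 0 < x := by linarith
  set t := tt l with ht
  have ht1 : 1 ≤ t := tt_pos l
  have ht2 : t ≤ 2 := tt_le l
  set a : ℝ := 2 * ((d : ℝ) * l) with ha
  have haK : 3 * a ≤ K := by rw [ha]; linarith
  have ha1 : 1 ≤ a := by rw [ha]; linarith
  -- the finite sums
  have hsum : ∀ N : ℕ, N = l + t → ∑ n ∈ Finset.range N, (bb d l n : ℝ) * x ^ ((l : ℤ) - n) = Pl d l x := by
    intro N hN
    have h1 : Finset.range (l + 1) ⊆ Finset.range N := Finset.range_subset_range.2 (by omega)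
    have h2 : ∑ n ∈ Finset.range N, (bb d l n : ℝ) * x ^ ((l : ℤ) - n) =
        ∑ n ∈ Finset.range (l + 1), (bb d l n : ℝ) * x ^ ((l : ℤ) - n) := by
      refine (Finset.sum_subset h1 fun n hn hn' => ?_).symm
      rw [Finset.mem_range] at hn hn'
      have h3 : bb d l n = 0 := by
        rcases Nat.even_or_odd l with he | ho
        · have h5 : n = l + 1 := by omega
          rw [h5]; exact bb_vanish d l _ (by have := Nat.even_iff.1 he; omega)
        · have h4 : tt l = 1 := by unfold tt; rw [if_pos ho]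
          omega
      rw [h3]; simp
    rw [h2]
    unfold Pl
    refine Finset.sum_congr rfl fun n hn => ?_
    rw [Finset.mem_range] at hn
    congr 1
    rw [show ((l : ℤ) - n) = ((l - n : ℕ) : ℤ) by omega, zpow_natCast]
  have hT1 := Fh_tail d l (l + t) hd1 hl x hx2
  rw [hsum (l + t) rfl] at hT1
  have hT2 := Fh_tail d l (l + t + 1) hd1 hl x hx2
  rw [Finset.sum_range_succ, hsum (l + t) rfl] at hT2
  have hpow : ∀ j : ℕ, 3 ^ l * x ^ l * (a / x) ^ (l + j) = 3 ^ l * a ^ (l + j) / x ^ j := by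
    intro j
    rw [div_pow, pow_add x l j]
    field_simp
  rw [← ha, hpow t] at hT1
  rw [← ha, add_assoc, hpow (t + 1)] at hT2
  have hxt : 0 < x ^ t := pow_pos hxpos _
  have hE1 : |Fh d l x - Pl d l x| * x ^ t ≤ 3 ^ l * a ^ (l + t) := by
    rwa [le_div_iff₀ hxt] at hT1
  have hu1 : (3 : ℝ) ^ l * a ^ (l + t) ≤ K ^ (3 * l) := by
    have h1 : a ^ (l + t) ≤ a ^ (3 * l) := pow_le_pow_right₀ ha1 (by omega)
    have h2 : (3 : ℝ) ^ l ≤ 3 ^ (3 * l) := pow_le_pow_right₀ (by norm_num) (by omega)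
    calc (3 : ℝ) ^ l * a ^ (l + t) ≤ 3 ^ (3 * l) * a ^ (3 * l) := mul_le_mul h2 h1 (by positivity) (by positivity)
      _ = (3 * a) ^ (3 * l) := (mul_pow _ _ _).symm
      _ ≤ K ^ (3 * l) := pow_le_pow_left₀ (by positivity) haK _
  refine ⟨?_, hE1.trans hu1⟩
  -- the lower bound
  have hnv := nv d l hd hl
  rw [← ht] at hnv
  obtain ⟨z, hz⟩ := bb_int d l (l + t) hd1
  have hz0 : z ≠ 0 := by
    rintro rfl
    have h1 : (d : ℚ) ^ (2 * (l + t)) ≠ 0 := pow_ne_zero _ (by positivity)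
    rw [Int.cast_zero] at hz
    rcases mul_eq_zero.1 hz with h | h
    · exact h1 h
    · exact hnv h
  have hzR : (d : ℝ) ^ (2 * (l + t)) * (bb d l (l + t) : ℝ) = z := by exact_mod_cast hz
  have hdp : (0 : ℝ) < (d : ℝ) ^ (2 * (l + t)) := by positivity
  have hb : 1 ≤ (d : ℝ) ^ (2 * (l + t)) * |(bb d l (l + t) : ℝ)| := by
    have h1 : |(z : ℝ)| = (d : ℝ) ^ (2 * (l + t)) * |(bb d l (l + t) : ℝ)| := by
      rw [← hzR, abs_mul, abs_of_pos hdp]
    rw [← h1, ← Int.cast_abs]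
    exact_mod_cast Int.one_le_abs hz0
  have hdK : (d : ℝ) ≤ K := by nlinarith
  have hdpow : (d : ℝ) ^ (2 * (l + t)) * 2 ≤ K ^ (7 * l) := by
    calc (d : ℝ) ^ (2 * (l + t)) * 2 ≤ K ^ (2 * (l + t)) * K :=
          mul_le_mul (pow_le_pow_left₀ (by positivity) hdK _) (by linarith) (by norm_num) (by positivity)
      _ = K ^ (2 * (l + t) + 1) := (pow_succ _ _).symm
      _ ≤ K ^ (7 * l) := pow_le_pow_right₀ hK1 (by omega)
  -- `|E| ≥ |b| x^(-t) - error`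
  set b : ℝ := (bb d l (l + t) : ℝ) with hbdef
  have hzp : x ^ ((l : ℤ) - ((l + t : ℕ) : ℤ)) = (x ^ t)⁻¹ := by
    rw [show ((l : ℤ) - ((l + t : ℕ) : ℤ)) = -(t : ℤ) by push_cast; ring, zpow_neg, zpow_natCast]
  rw [hzp] at hT2
  have hT3 : |b| * (x ^ t)⁻¹ - |Fh d l x - Pl d l x| ≤ 3 ^ l * a ^ (l + (t + 1)) / x ^ (t + 1) := by
    have h1 : |b * (x ^ t)⁻¹| - |Fh d l x - Pl d l x| ≤ |Fh d l x - (Pl d l x + b * (x ^ t)⁻¹)| := by
      have h2 : b * (x ^ t)⁻¹ = (Fh d l x - Pl d l x) - (Fh d l x - (Pl d l x + b * (x ^ t)⁻¹)) := by ring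
      have h3 : |b * (x ^ t)⁻¹| ≤ |Fh d l x - Pl d l x| + |Fh d l x - (Pl d l x + b * (x ^ t)⁻¹)| := by
        conv_lhs => rw [h2]
        exact abs_sub _ _
      linarith
    rw [abs_mul, abs_of_pos (inv_pos.2 hxt)] at h1
    exact h1.trans hT2
  have hT4 : |b| - |Fh d l x - Pl d l x| * x ^ t ≤ 3 ^ l * a ^ (l + (t + 1)) / x := by
    have h1 := mul_le_mul_of_nonneg_right hT3 hxt.le
    have h2 : (|b| * (x ^ t)⁻¹ - |Fh d l x - Pl d l x|) * x ^ t = |b| - |Fh d l x - Pl d l x| * x ^ t := by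
      field_simp
    have h3 : 3 ^ l * a ^ (l + (t + 1)) / x ^ (t + 1) * x ^ t = 3 ^ l * a ^ (l + (t + 1)) / x := by
      rw [pow_succ x t]
      field_simp
    rwa [h2, h3] at h1
  have hsmall : 3 ^ l * a ^ (l + (t + 1)) / x * (2 * (d : ℝ) ^ (2 * (l + t))) ≤ 1 := by
    have h1 : (3 : ℝ) ^ l * a ^ (l + (t + 1)) ≤ K ^ (l + (t + 1)) := by
      calc (3 : ℝ) ^ l * a ^ (l + (t + 1)) ≤ 3 ^ (l + (t + 1)) * a ^ (l + (t + 1)) :=
            mul_le_mul_of_nonneg_right (pow_le_pow_right₀ (by norm_num) (by omega)) (by positivity)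
        _ = (3 * a) ^ (l + (t + 1)) := (mul_pow _ _ _).symm
        _ ≤ K ^ (l + (t + 1)) := pow_le_pow_left₀ (by positivity) haK _
    rw [div_mul_eq_mul_div, div_le_one hxpos]
    calc 3 ^ l * a ^ (l + (t + 1)) * (2 * (d : ℝ) ^ (2 * (l + t)))
        ≤ K ^ (l + (t + 1)) * K ^ (7 * l) :=
          mul_le_mul h1 (by linarith) (by positivity) (by positivity)
      _ = K ^ (l + (t + 1) + 7 * l) := (pow_add _ _ _).symm
      _ ≤ K ^ (11 * l) := pow_le_pow_right₀ hK1 (by omega)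
      _ ≤ x := hx
  -- combine
  set y : ℝ := |Fh d l x - Pl d l x| * x ^ t with hy
  have hy0 : 0 ≤ y := by positivity
  have h1 : 2 * ((d : ℝ) ^ (2 * (l + t)) * |b|) - 2 * (d : ℝ) ^ (2 * (l + t)) * y ≤ 1 := by
    have h2 := mul_le_mul_of_nonneg_right hT4 (by positivity : (0 : ℝ) ≤ 2 * (d : ℝ) ^ (2 * (l + t)))
    have h3 : (|b| - y) * (2 * (d : ℝ) ^ (2 * (l + t))) =
        2 * ((d : ℝ) ^ (2 * (l + t)) * |b|) - 2 * (d : ℝ) ^ (2 * (l + t)) * y := by ring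
    rw [h3] at h2
    exact h2.trans hsmall
  have h2 : 1 ≤ 2 * (d : ℝ) ^ (2 * (l + t)) * y := by linarith
  calc (1 : ℝ) ≤ 2 * (d : ℝ) ^ (2 * (l + t)) * y := h2
    _ = y * ((d : ℝ) ^ (2 * (l + t)) * 2) := by ring
    _ ≤ y * K ^ (7 * l) := mul_le_mul_of_nonneg_left hdpow hy0

/-- `(d^2)^l Pl` is an integer at integers -/
theorem Pl_int (d l : ℕ) (hd : 1 ≤ d) (x : ℤ) : ∃ z : ℤ, (d : ℝ) ^ (2 * l) * Pl d l (x : ℝ) = z := by
  unfold Pl
  have h : ∀ n : ℕ, ∃ z : ℤ, (d : ℚ) ^ (2 * n) * bb d l n = z := fun n => bb_int d l n hd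
  choose z hz using h
  refine ⟨∑ n ∈ Finset.range (l + 1), z n * d ^ (2 * (l - n)) * x ^ (l - n), ?_⟩
  push_cast
  rw [Finset.mul_sum]
  refine Finset.sum_congr rfl fun n hn => ?_
  rw [Finset.mem_range] at hn
  have h1 : ((z n : ℤ) : ℝ) = (d : ℝ) ^ (2 * n) * (bb d l n : ℝ) := by exact_mod_cast (hz n).symm
  rw [h1]
  have h2 : (d : ℝ) ^ (2 * l) = (d : ℝ) ^ (2 * n) * (d : ℝ) ^ (2 * (l - n)) := by
    rw [← pow_add]; congr 1; omega
  rw [h2]
  ring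

/-- Runge's step -/
theorem runge (d l m : ℕ) (hd : 2 ≤ d) (hm : 1 ≤ m) (hml : m < l) (K : ℝ) (hK : 6 * ((d : ℝ) * l) ≤ K) (x y : ℤ)
    (hx : K ^ (11 * l) ≤ (x : ℝ)) (hxy : x ≤ y) (hF : Fh d l x = 2 ^ (l - m) * Fh d m y) :
    Fh d l x - Pl d l x = 2 ^ (l - m) * (Fh d m y - Pl d m y) := by
  have hdR : (2 : ℝ) ≤ d := by exact_mod_cast hd
  have hlR : (1 : ℝ) ≤ l := by exact_mod_cast (by omega : 1 ≤ l)
  have hmlR : (m : ℝ) ≤ l := by exact_mod_cast hml.le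
  have hK12 : (12 : ℝ) ≤ K := by nlinarith
  have hK1 : (1 : ℝ) ≤ K := by linarith
  have hKm : 6 * ((d : ℝ) * m) ≤ K := by nlinarith
  have hKx : K ≤ (x : ℝ) := by
    calc K = K ^ 1 := (pow_one K).symm
      _ ≤ K ^ (11 * l) := pow_le_pow_right₀ hK1 (by omega)
      _ ≤ x := hx
  have hxyR : (x : ℝ) ≤ y := by exact_mod_cast hxy
  have hy : K ^ (11 * m) ≤ (y : ℝ) := (pow_le_pow_right₀ hK1 (by omega)).trans (hx.trans hxyR)
  have hxpos : (0 : ℝ) < x := by linarith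
  have hypos : (0 : ℝ) < y := by linarith
  have h1 := (E_bounds d l hd (by omega) K hK x hx).2
  have h2 := (E_bounds d m hd hm K hKm y hy).2
  have hpow1 : ∀ (w : ℝ), K ≤ w → ∀ n : ℕ, w ≤ w ^ tt n := by
    intro w hw n
    calc w = w ^ 1 := (pow_one w).symm
      _ ≤ w ^ tt n := pow_le_pow_right₀ (by linarith) (tt_pos n)
  have h1' : |Fh d l x - Pl d l x| * x ≤ K ^ (3 * l) :=
    (mul_le_mul_of_nonneg_left (hpow1 x hKx l) (abs_nonneg _)).trans h1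
  have h2' : |Fh d m y - Pl d m y| * x ≤ K ^ (3 * l) := by
    calc |Fh d m y - Pl d m y| * x ≤ |Fh d m y - Pl d m y| * y :=
          mul_le_mul_of_nonneg_left hxyR (abs_nonneg _)
      _ ≤ |Fh d m y - Pl d m y| * (y : ℝ) ^ tt m :=
          mul_le_mul_of_nonneg_left (hpow1 y (hKx.trans hxyR) m) (abs_nonneg _)
      _ ≤ K ^ (3 * m) := h2
      _ ≤ K ^ (3 * l) := pow_le_pow_right₀ hK1 (by omega)
  obtain ⟨a, ha⟩ := Pl_int d l (by omega) x
  obtain ⟨b, hb⟩ := Pl_int d m (by omega) y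
  -- the integer
  have hint : (d : ℝ) ^ (2 * l) * (Pl d l x - 2 ^ (l - m) * Pl d m y) =
      ((a - 2 ^ (l - m) * d ^ (2 * (l - m)) * b : ℤ) : ℝ) := by
    push_cast
    rw [← ha, ← hb]
    have h3 : (d : ℝ) ^ (2 * l) = (d : ℝ) ^ (2 * m) * (d : ℝ) ^ (2 * (l - m)) := by
      rw [← pow_add]; congr 1; omega
    rw [mul_sub, h3]
    ring
  have hsmall : |Pl d l x - 2 ^ (l - m) * Pl d m y| * x ≤ (1 + 2 ^ l) * K ^ (3 * l) := by
    have h3 : Pl d l x - 2 ^ (l - m) * Pl d m y =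
        2 ^ (l - m) * (Fh d m y - Pl d m y) - (Fh d l x - Pl d l x) := by rw [hF]; ring
    rw [h3]
    have h4 : (2 : ℝ) ^ (l - m) ≤ 2 ^ l := pow_le_pow_right₀ (by norm_num) (by omega)
    calc |2 ^ (l - m) * (Fh d m y - Pl d m y) - (Fh d l x - Pl d l x)| * x
        ≤ (|2 ^ (l - m) * (Fh d m y - Pl d m y)| + |Fh d l x - Pl d l x|) * x :=
          mul_le_mul_of_nonneg_right (abs_sub _ _) hxpos.le
      _ = 2 ^ (l - m) * (|Fh d m y - Pl d m y| * x) + |Fh d l x - Pl d l x| * x := by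
          rw [abs_mul, abs_of_pos (by positivity : (0 : ℝ) < 2 ^ (l - m))]; ring
      _ ≤ 2 ^ l * K ^ (3 * l) + K ^ (3 * l) :=
          add_le_add (mul_le_mul h4 h2' (by positivity) (by positivity)) h1'
      _ = (1 + 2 ^ l) * K ^ (3 * l) := by ring
  have hzero : a - 2 ^ (l - m) * d ^ (2 * (l - m)) * b = 0 := by
    by_contra hne
    have h3 : (1 : ℝ) ≤ |((a - 2 ^ (l - m) * d ^ (2 * (l - m)) * b : ℤ) : ℝ)| := by
      rw [← Int.cast_abs]
      exact_mod_cast Int.one_le_abs hne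
    rw [← hint, abs_mul, abs_of_pos (by positivity : (0 : ℝ) < (d : ℝ) ^ (2 * l))] at h3
    have hdK : (d : ℝ) ≤ K := by nlinarith
    have h4 : (x : ℝ) ≤ (d : ℝ) ^ (2 * l) * ((1 + 2 ^ l) * K ^ (3 * l)) := by
      calc (x : ℝ) = 1 * x := (one_mul _).symm
        _ ≤ ((d : ℝ) ^ (2 * l) * |Pl d l x - 2 ^ (l - m) * Pl d m y|) * x :=
            mul_le_mul_of_nonneg_right h3 hxpos.le
        _ = (d : ℝ) ^ (2 * l) * (|Pl d l x - 2 ^ (l - m) * Pl d m y| * x) := by ring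
        _ ≤ (d : ℝ) ^ (2 * l) * ((1 + 2 ^ l) * K ^ (3 * l)) := mul_le_mul_of_nonneg_left hsmall (by positivity)
    have h5 : (1 : ℝ) + 2 ^ l ≤ K ^ l := by
      have h6 : (1 : ℝ) + 2 ^ l ≤ 2 * 2 ^ l := by
        have : (1 : ℝ) ≤ 2 ^ l := one_le_pow₀ (by norm_num)
        linarith
      have h7 : (2 : ℝ) * 2 ^ l ≤ 4 ^ l := by
        have h8 : (4 : ℝ) ^ l = 2 ^ l * 2 ^ l := by rw [← mul_pow]; norm_num
        rw [h8]
        refine mul_le_mul_of_nonneg_right ?_ (by positivity)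
        calc (2 : ℝ) = 2 ^ 1 := by norm_num
          _ ≤ 2 ^ l := pow_le_pow_right₀ (by norm_num) (by omega)
      exact (h6.trans h7).trans (pow_le_pow_left₀ (by norm_num) (by linarith) _)
    have h6 : (d : ℝ) ^ (2 * l) * ((1 + 2 ^ l) * K ^ (3 * l)) ≤ K ^ (6 * l) := by
      calc (d : ℝ) ^ (2 * l) * ((1 + 2 ^ l) * K ^ (3 * l)) ≤ K ^ (2 * l) * (K ^ l * K ^ (3 * l)) :=
            mul_le_mul (pow_le_pow_left₀ (by positivity) hdK _)
              (mul_le_mul_of_nonneg_right h5 (by positivity)) (by positivity) (by positivity)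
        _ = K ^ (6 * l) := by rw [← pow_add, ← pow_add]; congr 1; ring
    have h7 : K ^ (6 * l) < K ^ (11 * l) := pow_lt_pow_right₀ (by linarith) (by omega)
    linarith
  have hP : Pl d l x - 2 ^ (l - m) * Pl d m y = 0 := by
    rw [hzero, Int.cast_zero] at hint
    rcases mul_eq_zero.1 hint with h | h
    · exact absurd h (by positivity)
    · exact h
  rw [hF]
  linear_combination -hP

end Rng
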