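import Pool.Agent.Lib.MP_4ae430_nt.Q.R2

/-!
# The explicit bound for two blocks whose lengths have a common factor
-/

set_option autoImplicit false

namespace Rng

/-- the four comparisons in logarithmic form -/
theorem final_logs (l m t t' : ℕ) (hm : 1 ≤ m) (hl : 1 ≤ l) (ht' : t' ≤ 2) (X Y lam : ℝ)
    (hlam : 0 ≤ lam) (h1 : (t : ℝ) * X ≤ 10 * l * lam + t' * Y) (h2 : (t' : ℝ) * Y ≤ 11 * l * lam + t * X)
    (h3 : (l : ℝ) * X ≤ l * lam + m * Y) (h4 : (m : ℝ) * Y ≤ m * lam + l * X) :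
    |(l : ℝ) * t' - m * t| * X ≤ 13 * l * m * lam := by
  have hmR : (1 : ℝ) ≤ m := by exact_mod_cast hm
  have hlR : (1 : ℝ) ≤ l := by exact_mod_cast hl
  have htR : (t' : ℝ) ≤ 2 := by exact_mod_cast ht'
  have ht0 : (0 : ℝ) ≤ t' := Nat.cast_nonneg _
  have hll : (l : ℝ) * lam ≤ l * m * lam := by
    have : (l : ℝ) * lam * 1 ≤ l * lam * m := mul_le_mul_of_nonneg_left hmR (by positivity)
    linarith
  have hml : (m : ℝ) * lam ≤ l * m * lam := by
    have : (m : ℝ) * lam * 1 ≤ m * lam * l := mul_le_mul_of_nonneg_left hlR (by positivity)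
    linarith
  have hA : ((l : ℝ) * t' - m * t) * X ≤ 13 * l * m * lam := by
    have e1 := mul_le_mul_of_nonneg_left h3 ht0
    have e2 := mul_le_mul_of_nonneg_left h2 (by linarith : (0 : ℝ) ≤ m)
    have e3 : (t' : ℝ) * (l * lam) ≤ 2 * (l * lam) := mul_le_mul_of_nonneg_right htR (by positivity)
    nlinarith
  have hB : -((l : ℝ) * t' - m * t) * X ≤ 13 * l * m * lam := by
    have e1 := mul_le_mul_of_nonneg_left h4 ht0
    have e2 := mul_le_mul_of_nonneg_left h1 (by linarith : (0 : ℝ) ≤ m)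
    have e3 : (t' : ℝ) * (m * lam) ≤ 2 * (m * lam) := mul_le_mul_of_nonneg_right htR (by positivity)
    nlinarith
  rcases abs_cases ((l : ℝ) * t' - m * t) with ⟨h, _⟩ | ⟨h, _⟩
  · rw [h]; exact hA
  · rw [h]; exact hB

/-- the linear form `l t' - m t` is not small -/
theorem form_ge (l m : ℕ) (hlm : m < l) (hc : Nat.Coprime l m) :
    min (m : ℝ) (min ((l : ℝ) - m) |(l : ℝ) - 2 * m|) ≤ |(l : ℝ) * tt m - m * tt l| := by
  have hmlR : (m : ℝ) < l := by exact_mod_cast hlm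
  have hm0 : (0 : ℝ) ≤ m := Nat.cast_nonneg _
  rcases Nat.even_or_odd l with hl | hl
  · have h1 : tt l = 2 := by unfold tt; rw [if_neg (Nat.not_odd_iff_even.2 hl)]
    rcases Nat.even_or_odd m with hm | hm
    · exfalso
      have h2 : 2 ∣ Nat.gcd l m := Nat.dvd_gcd hl.two_dvd hm.two_dvd
      rw [hc] at h2
      omega
    · have h2 : tt m = 1 := by unfold tt; rw [if_pos hm]
      rw [h1, h2]
      refine (min_le_right _ _).trans ((min_le_right _ _).trans ?_)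
      have : (l : ℝ) * ((1 : ℕ) : ℝ) - m * ((2 : ℕ) : ℝ) = (l : ℝ) - 2 * m := by push_cast; ring
      rw [this]
  · have h1 : tt l = 1 := by unfold tt; rw [if_pos hl]
    rcases Nat.even_or_odd m with hm | hm
    · have h2 : tt m = 2 := by unfold tt; rw [if_neg (Nat.not_odd_iff_even.2 hm)]
      rw [h1, h2]
      refine (min_le_left _ _).trans ?_
      have : (l : ℝ) * ((2 : ℕ) : ℝ) - m * ((1 : ℕ) : ℝ) = 2 * (l : ℝ) - m := by push_cast; ring
      rw [this, abs_of_nonneg (by linarith)]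
      linarith
    · have h2 : tt m = 1 := by unfold tt; rw [if_pos hm]
      rw [h1, h2]
      refine (min_le_right _ _).trans ((min_le_left _ _).trans ?_)
      have : (l : ℝ) * ((1 : ℕ) : ℝ) - m * ((1 : ℕ) : ℝ) = (l : ℝ) - m := by push_cast; ring
      rw [this]
      exact le_abs_self _

/-- the bound in terms of `d, l, m` -/
theorem bound_dlm (d l m : ℕ) (hd : 2 ≤ d) (hm : 1 ≤ m) (hml : m < l) (hc : Nat.Coprime l m) (x y : ℤ)
    (hx1 : 1 ≤ x) (hxy : x ≤ y) (hF : Fh d l x = 2 ^ (l - m) * Fh d m y) :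
    min (m : ℝ) (min ((l : ℝ) - m) |(l : ℝ) - 2 * m|) * Real.log x ≤
      13 * l * m * Real.log (6 * ((d : ℝ) * l)) := by
  set K : ℝ := 6 * ((d : ℝ) * l) with hK
  have hdR : (2 : ℝ) ≤ d := by exact_mod_cast hd
  have hmR : (1 : ℝ) ≤ m := by exact_mod_cast hm
  have hmlR : (m : ℝ) < l := by exact_mod_cast hml
  have hlR : (1 : ℝ) ≤ l := by linarith
  have hK12 : (12 : ℝ) ≤ K := by rw [hK]; nlinarith
  have hK1 : (1 : ℝ) ≤ K := by linarith
  have hKpos : (0 : ℝ) < K := by linarith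
  have hlam : 0 ≤ Real.log K := Real.log_nonneg hK1
  have hx1R : (1 : ℝ) ≤ x := by exact_mod_cast hx1
  have hX0 : 0 ≤ Real.log x := Real.log_nonneg hx1R
  have hmin_m : min (m : ℝ) (min ((l : ℝ) - m) |(l : ℝ) - 2 * m|) ≤ m := min_le_left _ _
  rcases lt_or_ge (x : ℝ) (K ^ (11 * l)) with hx | hx
  · have h1 : Real.log x ≤ 11 * l * Real.log K := by
      have h2 := Real.log_le_log (by linarith) hx.le
      rw [Real.log_pow] at h2
      push_cast at h2
      linarith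
    calc min (m : ℝ) (min ((l : ℝ) - m) |(l : ℝ) - 2 * m|) * Real.log x ≤ m * Real.log x :=
          mul_le_mul_of_nonneg_right hmin_m hX0
      _ ≤ m * (11 * l * Real.log K) := mul_le_mul_of_nonneg_left h1 (by linarith)
      _ ≤ 13 * l * m * Real.log K := by
          have : 0 ≤ (l : ℝ) * m * Real.log K := by positivity
          nlinarith
  · have hxyR : (x : ℝ) ≤ y := by exact_mod_cast hxy
    have hKm : 6 * ((d : ℝ) * m) ≤ K := by rw [hK]; nlinarith
    have hy : K ^ (11 * m) ≤ (y : ℝ) := (pow_le_pow_right₀ hK1 (by omega)).trans (hx.trans hxyR)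
    have hKx : K ≤ (x : ℝ) := by
      calc K = K ^ 1 := (pow_one K).symm
        _ ≤ K ^ (11 * l) := pow_le_pow_right₀ hK1 (by omega)
        _ ≤ x := hx
    have hxpos : (0 : ℝ) < x := by linarith
    have hypos : (0 : ℝ) < y := by linarith
    obtain ⟨a1, a2⟩ := E_bounds d l hd (by omega) K le_rfl x hx
    obtain ⟨b1, b2⟩ := E_bounds d m hd hm K hKm y hy
    have hE := runge d l m hd hm hml K le_rfl x y hx hxy hF
    set E := Fh d l x - Pl d l x with hEdef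
    set E' := Fh d m y - Pl d m y with hEdef'
    set t := tt l with ht
    set t' := tt m with ht'
    have hxt : 0 < (x : ℝ) ^ t := pow_pos hxpos _
    have hyt : 0 < (y : ℝ) ^ t' := pow_pos hypos _
    have habs : |E| = 2 ^ (l - m) * |E'| := by
      rw [hE, abs_mul, abs_of_pos (by positivity : (0 : ℝ) < 2 ^ (l - m))]
    have hEE' : |E'| ≤ |E| := by
      rw [habs]
      have : (1 : ℝ) ≤ 2 ^ (l - m) := one_le_pow₀ (by norm_num)
      nlinarith [abs_nonneg E']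
    have hEE : |E| ≤ K ^ l * |E'| := by
      rw [habs]
      refine mul_le_mul_of_nonneg_right ?_ (abs_nonneg _)
      calc (2 : ℝ) ^ (l - m) ≤ 2 ^ l := pow_le_pow_right₀ (by norm_num) (by omega)
        _ ≤ K ^ l := pow_le_pow_left₀ (by norm_num) (by linarith) _
    -- x^t ≤ K^(10 l) y^t'
    have c1 : (x : ℝ) ^ t ≤ K ^ (10 * l) * (y : ℝ) ^ t' := by
      have h1 : (x : ℝ) ^ t ≤ (x : ℝ) ^ t * (|E'| * (y : ℝ) ^ t' * K ^ (7 * m)) :=
        le_mul_of_one_le_right hxt.le b1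
      calc (x : ℝ) ^ t ≤ (x : ℝ) ^ t * (|E'| * (y : ℝ) ^ t' * K ^ (7 * m)) := h1
        _ ≤ (x : ℝ) ^ t * (|E| * (y : ℝ) ^ t' * K ^ (7 * m)) := by
            refine mul_le_mul_of_nonneg_left ?_ hxt.le
            refine mul_le_mul_of_nonneg_right ?_ (by positivity)
            exact mul_le_mul_of_nonneg_right hEE' hyt.le
        _ = (|E| * (x : ℝ) ^ t) * ((y : ℝ) ^ t' * K ^ (7 * m)) := by ring
        _ ≤ K ^ (3 * l) * ((y : ℝ) ^ t' * K ^ (7 * m)) := mul_le_mul_of_nonneg_right a2 (by positivity)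
        _ = K ^ (3 * l + 7 * m) * (y : ℝ) ^ t' := by rw [pow_add]; ring
        _ ≤ K ^ (10 * l) * (y : ℝ) ^ t' :=
            mul_le_mul_of_nonneg_right (pow_le_pow_right₀ hK1 (by omega)) hyt.le
    have c2 : (y : ℝ) ^ t' ≤ K ^ (11 * l) * (x : ℝ) ^ t := by
      have h1 : (y : ℝ) ^ t' ≤ (y : ℝ) ^ t' * (|E| * (x : ℝ) ^ t * K ^ (7 * l)) :=
        le_mul_of_one_le_right hyt.le a1
      calc (y : ℝ) ^ t' ≤ (y : ℝ) ^ t' * (|E| * (x : ℝ) ^ t * K ^ (7 * l)) := h1
        _ ≤ (y : ℝ) ^ t' * ((K ^ l * |E'|) * (x : ℝ) ^ t * K ^ (7 * l)) := by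
            refine mul_le_mul_of_nonneg_left ?_ hyt.le
            refine mul_le_mul_of_nonneg_right ?_ (by positivity)
            exact mul_le_mul_of_nonneg_right hEE hxt.le
        _ = (|E'| * (y : ℝ) ^ t') * (K ^ l * K ^ (7 * l) * (x : ℝ) ^ t) := by ring
        _ ≤ K ^ (3 * m) * (K ^ l * K ^ (7 * l) * (x : ℝ) ^ t) := mul_le_mul_of_nonneg_right b2 (by positivity)
        _ = K ^ (3 * m + (l + 7 * l)) * (x : ℝ) ^ t := by rw [pow_add, pow_add]; ring
        _ ≤ K ^ (11 * l) * (x : ℝ) ^ t :=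
            mul_le_mul_of_nonneg_right (pow_le_pow_right₀ hK1 (by omega)) hxt.le
    have hxk : 2 * ((d : ℝ) * l) ≤ x := by rw [hK] at hKx; nlinarith
    have hyk : 2 * ((d : ℝ) * m) ≤ y := by nlinarith
    obtain ⟨s1, s2⟩ := Fh_size d l (by omega) x hxk hxpos
    obtain ⟨s3, s4⟩ := Fh_size d m (by omega) y hyk hypos
    have hlm2 : (2 : ℝ) ^ l = 2 ^ (l - m) * 2 ^ m := by rw [← pow_add]; congr 1; omega
    have c3 : (x : ℝ) ^ l ≤ 4 ^ l * (y : ℝ) ^ m := by
      have h1 : ((x : ℝ) / 2) ^ l ≤ 2 ^ (l - m) * (2 * y) ^ m := by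
        refine s1.trans ?_
        rw [hF]
        exact mul_le_mul_of_nonneg_left s4 (by positivity)
      have h2 : (x : ℝ) ^ l = 2 ^ l * ((x : ℝ) / 2) ^ l := by rw [← mul_pow]; congr 1; ring
      rw [h2]
      calc (2 : ℝ) ^ l * ((x : ℝ) / 2) ^ l ≤ 2 ^ l * (2 ^ (l - m) * (2 * y) ^ m) :=
            mul_le_mul_of_nonneg_left h1 (by positivity)
        _ = 2 ^ l * (2 ^ (l - m) * 2 ^ m) * (y : ℝ) ^ m := by rw [mul_pow]; ring
        _ = 4 ^ l * (y : ℝ) ^ m := by rw [← hlm2, ← mul_pow]; norm_num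
    have c4 : (y : ℝ) ^ m ≤ 4 ^ m * (x : ℝ) ^ l := by
      have h1 : 2 ^ (l - m) * ((y : ℝ) / 2) ^ m ≤ (2 * x) ^ l := by
        refine le_trans ?_ s2
        rw [hF]
        exact mul_le_mul_of_nonneg_left s3 (by positivity)
      have h2 : 2 ^ (l - m) * (y : ℝ) ^ m = 2 ^ m * (2 ^ (l - m) * ((y : ℝ) / 2) ^ m) := by
        rw [div_pow]; field_simp
      have h3 : (2 : ℝ) ^ (l - m) * (y : ℝ) ^ m ≤ 2 ^ (l - m) * (4 ^ m * (x : ℝ) ^ l) := by
        rw [h2]
        calc (2 : ℝ) ^ m * (2 ^ (l - m) * ((y : ℝ) / 2) ^ m) ≤ 2 ^ m * (2 * x) ^ l :=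
              mul_le_mul_of_nonneg_left h1 (by positivity)
          _ = 2 ^ m * (2 ^ (l - m) * 2 ^ m) * (x : ℝ) ^ l := by rw [mul_pow, hlm2]; ring
          _ = 2 ^ (l - m) * (4 ^ m * (x : ℝ) ^ l) := by
              have : (4 : ℝ) ^ m = 2 ^ m * 2 ^ m := by rw [← mul_pow]; norm_num
              rw [this]; ring
      exact le_of_mul_le_mul_left h3 (by positivity)
    have hlog4 : Real.log 4 ≤ Real.log K := Real.log_le_log (by norm_num) (by linarith)
    have hlog : |(l : ℝ) * t' - m * t| * Real.log x ≤ 13 * l * m * Real.log K := by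
      refine final_logs l m t t' hm (by omega) (tt_le m) (Real.log x) (Real.log y) (Real.log K) hlam ?_ ?_ ?_ ?_
      · have h1 := Real.log_le_log hxt c1
        rw [Real.log_mul (by positivity) (by positivity), Real.log_pow, Real.log_pow, Real.log_pow] at h1
        push_cast at h1
        linarith
      · have h1 := Real.log_le_log hyt c2
        rw [Real.log_mul (by positivity) (by positivity), Real.log_pow, Real.log_pow, Real.log_pow] at h1
        push_cast at h1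
        linarith
      · have h1 := Real.log_le_log (by positivity) c3
        rw [Real.log_mul (by positivity) (by positivity), Real.log_pow, Real.log_pow, Real.log_pow] at h1
        have h2 := mul_le_mul_of_nonneg_left hlog4 (by linarith : (0 : ℝ) ≤ l)
        linarith
      · have h1 := Real.log_le_log (by positivity) c4
        rw [Real.log_mul (by positivity) (by positivity), Real.log_pow, Real.log_pow, Real.log_pow] at h1
        have h2 := mul_le_mul_of_nonneg_left hlog4 (by linarith : (0 : ℝ) ≤ m)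
        linarith
    exact (mul_le_mul_of_nonneg_right (form_ge l m hml hc) hX0).trans hlog

/-- The explicit bound: for lengths with a common factor. -/
theorem explicit_bound (m₁ k₁ m₂ k₂ : ℕ) (hk2 : 1 ≤ k₂) (hkk : k₂ < k₁) (hg : 2 ≤ Nat.gcd k₁ k₂)
    (hm : m₁ + k₁ ≤ m₂)
    (h : ∏ i ∈ Finset.Icc 1 k₁, (m₁ + i) = ∏ j ∈ Finset.Icc 1 k₂, (m₂ + j)) :
    (Nat.gcd k₁ k₂ : ℝ) * min (k₂ : ℝ) (min ((k₁ : ℝ) - k₂) |(k₁ : ℝ) - 2 * k₂|) * Real.log ((m₁ : ℝ) + k₁) ≤
      13 * k₁ * k₂ * Real.log (6 * k₁) := by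
  set d := Nat.gcd k₁ k₂ with hd
  have hdpos : 0 < d := by omega
  obtain ⟨l, hl⟩ : d ∣ k₁ := Nat.gcd_dvd_left _ _
  obtain ⟨m, hm'⟩ : d ∣ k₂ := Nat.gcd_dvd_right _ _
  have hc : Nat.Coprime l m := by
    have h1 : Nat.gcd (d * l) (d * m) = d := by rw [← hl, ← hm']
    rw [Nat.gcd_mul_left] at h1
    exact Nat.eq_of_mul_eq_mul_left hdpos (by rw [h1, mul_one])
  have hm1 : 1 ≤ m := by
    rcases Nat.eq_zero_or_pos m with h0 | h0
    · rw [h0, mul_zero] at hm'; omega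
    · exact h0
  have hml : m < l := by
    rw [hl, hm'] at hkk
    exact lt_of_mul_lt_mul_left hkk (Nat.zero_le d)
  set x : ℤ := ((2 * m₁ + d * l + 1 : ℕ) : ℤ) with hx
  set y : ℤ := ((2 * m₂ + d * m + 1 : ℕ) : ℤ) with hy
  have hF : Fh d l (x : ℝ) = 2 ^ (l - m) * Fh d m (y : ℝ) := by
    have h1 := Fh_block d l m₁ hdpos
    have h2 := Fh_block d m m₂ hdpos
    have hx' : (x : ℝ) = ((2 * m₁ + d * l + 1 : ℕ) : ℝ) := by rw [hx]; push_cast; rfl
    have hy' : (y : ℝ) = ((2 * m₂ + d * m + 1 : ℕ) : ℝ) := by rw [hy]; push_cast; rfl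
    rw [hx', hy', h1, h2, ← hl, ← hm', h, ← mul_assoc, ← pow_add]
    congr 2
    omega
  have hbd := bound_dlm d l m hg hm1 hml hc x y (by rw [hx]; exact_mod_cast (by omega : 1 ≤ 2 * m₁ + d * l + 1)) (by
    rw [hx, hy, ← hl, ← hm']; exact_mod_cast (by omega : 2 * m₁ + k₁ + 1 ≤ 2 * m₂ + k₂ + 1)) hF
  have hdR : (0 : ℝ) ≤ (d : ℝ) := Nat.cast_nonneg _
  have hk1R : (k₁ : ℝ) = (d : ℝ) * l := by rw [hl]; push_cast; ring
  have hk2R : (k₂ : ℝ) = (d : ℝ) * m := by rw [hm']; push_cast; ring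
  have hmin : min (k₂ : ℝ) (min ((k₁ : ℝ) - k₂) |(k₁ : ℝ) - 2 * k₂|) =
      (d : ℝ) * min (m : ℝ) (min ((l : ℝ) - m) |(l : ℝ) - 2 * m|) := by
    rw [mul_min_of_nonneg _ _ hdR, mul_min_of_nonneg _ _ hdR, hk1R, hk2R]
    congr 2
    · ring
    · rw [← abs_of_nonneg hdR, ← abs_mul, abs_of_nonneg hdR]
      congr 1
      ring
  have hml' : (m : ℝ) < l := by exact_mod_cast hml
  have hmin0 : 0 ≤ min (m : ℝ) (min ((l : ℝ) - m) |(l : ℝ) - 2 * m|) :=
    le_min (Nat.cast_nonneg _) (le_min (by linarith) (abs_nonneg _))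
  have hk1pos : (0 : ℝ) < (k₁ : ℝ) := by exact_mod_cast (by omega : 0 < k₁)
  have hlogx : Real.log ((m₁ : ℝ) + k₁) ≤ Real.log (x : ℝ) := by
    refine Real.log_le_log (by positivity) ?_
    have hx' : (x : ℝ) = 2 * (m₁ : ℝ) + k₁ + 1 := by rw [hx, ← hl]; push_cast; ring
    rw [hx']
    have : (0 : ℝ) ≤ m₁ := Nat.cast_nonneg _
    linarith
  rw [hmin]
  calc (d : ℝ) * ((d : ℝ) * min (m : ℝ) (min ((l : ℝ) - m) |(l : ℝ) - 2 * m|)) * Real.log ((m₁ : ℝ) + k₁)
      ≤ (d : ℝ) * ((d : ℝ) * min (m : ℝ) (min ((l : ℝ) - m) |(l : ℝ) - 2 * m|)) * Real.log (x : ℝ) :=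
        mul_le_mul_of_nonneg_left hlogx (by positivity)
    _ = (d : ℝ) * (d : ℝ) * (min (m : ℝ) (min ((l : ℝ) - m) |(l : ℝ) - 2 * m|) * Real.log (x : ℝ)) := by ring
    _ ≤ (d : ℝ) * (d : ℝ) * (13 * l * m * Real.log (6 * ((d : ℝ) * l))) :=
        mul_le_mul_of_nonneg_left hbd (by positivity)
    _ = 13 * k₁ * k₂ * Real.log (6 * k₁) := by rw [hk1R, hk2R]; ring

end Rng
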