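import Mathlib

set_option autoImplicit false

namespace Rng

private theorem S1b_rec (r : ℚ) (n : ℕ) :
    Ring.choose r (n + 1) * ((n : ℚ) + 1) = Ring.choose r n * (r - n) := by
  have h1 := Ring.descPochhammer_eq_factorial_smul_choose r (n + 1)
  have h2 := Ring.descPochhammer_eq_factorial_smul_choose r n
  rw [descPochhammer_succ_right, Polynomial.smeval_mul, h2, Polynomial.smeval_sub,
    Polynomial.smeval_X, Polynomial.smeval_natCast, pow_one, pow_zero, Nat.factorial_succ] at h1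
  simp only [nsmul_eq_mul, Nat.cast_mul, Nat.cast_add, Nat.cast_one, mul_one] at h1
  have hf : (n.factorial : ℚ) ≠ 0 := by exact_mod_cast n.factorial_ne_zero
  apply mul_left_cancel₀ hf
  linear_combination -h1

/-- ROW 4aq-S1b. `choose (1/d) n = (1/d) ∏_{i=1}^{n-1} (1/d - i)/(i+1)`, every factor of absolute value at most `1`. -/
theorem choose_le (d n : ℕ) (hd : 1 ≤ d) (hn : 1 ≤ n) : |Ring.choose (1 / (d : ℚ)) n| ≤ 1 / (d : ℚ) := by
  have hd' : (1 : ℚ) ≤ d := by exact_mod_cast hd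
  have h0 : (0 : ℚ) ≤ 1 / (d : ℚ) := by positivity
  have h1 : 1 / (d : ℚ) ≤ 1 := by
    rw [div_le_one (by linarith)]
    exact hd'
  induction n, hn using Nat.le_induction with
  | base => rw [Ring.choose_one_right, abs_of_nonneg h0]
  | succ n hn ih =>
    have hn' : (1 : ℚ) ≤ n := by exact_mod_cast hn
    have h2 := congrArg abs (S1b_rec (1 / (d : ℚ)) n)
    rw [abs_mul, abs_mul, abs_of_nonneg (by linarith : (0 : ℚ) ≤ (n : ℚ) + 1)] at h2
    have h3 : |1 / (d : ℚ) - n| ≤ (n : ℚ) + 1 := by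
      rw [abs_le]
      constructor <;> linarith
    have h4 : |Ring.choose (1 / (d : ℚ)) n| * |1 / (d : ℚ) - n| ≤ 1 / (d : ℚ) * ((n : ℚ) + 1) :=
      mul_le_mul ih h3 (abs_nonneg _) h0
    rw [← h2] at h4
    exact le_of_mul_le_mul_right h4 (by linarith)

end Rng
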