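import Pool.Agent.Lib.MP_4ae430_nt.Q.Defs
import Pool.Agent.Lib.MP_4ae430_nt.Q.S1b

set_option autoImplicit false

namespace Rng

/-- weighted finite sum of the absolute values of the coefficients -/
noncomputable def S3_s (f : PowerSeries ℚ) (r : ℝ) (N : ℕ) : ℝ :=
  ∑ n ∈ Finset.range N, |((PowerSeries.coeff n f : ℚ) : ℝ)| * r ^ n

theorem S3_nonneg (f : PowerSeries ℚ) {r : ℝ} (hr : 0 ≤ r) (N : ℕ) : 0 ≤ S3_s f r N :=
  Finset.sum_nonneg fun n _ => by positivity

theorem S3_mul (f g : PowerSeries ℚ) {r : ℝ} (hr : 0 ≤ r) (N : ℕ) :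
    S3_s (f * g) r N ≤ S3_s f r N * S3_s g r N := by
  unfold S3_s
  have h1 : ∀ n ∈ Finset.range N, |((PowerSeries.coeff n (f * g) : ℚ) : ℝ)| * r ^ n ≤
      ∑ p ∈ Finset.HasAntidiagonal.antidiagonal n, (|((PowerSeries.coeff p.1 f : ℚ) : ℝ)| * r ^ p.1) *
        (|((PowerSeries.coeff p.2 g : ℚ) : ℝ)| * r ^ p.2) := by
    intro n _
    rw [PowerSeries.coeff_mul]
    push_cast
    have h2 := Finset.abs_sum_le_sum_abs (fun p : ℕ × ℕ => ((PowerSeries.coeff p.1 f : ℚ) : ℝ) *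
      ((PowerSeries.coeff p.2 g : ℚ) : ℝ)) (Finset.HasAntidiagonal.antidiagonal n)
    calc |∑ p ∈ Finset.HasAntidiagonal.antidiagonal n, ((PowerSeries.coeff p.1 f : ℚ) : ℝ) *
          ((PowerSeries.coeff p.2 g : ℚ) : ℝ)| * r ^ n
        ≤ (∑ p ∈ Finset.HasAntidiagonal.antidiagonal n, |((PowerSeries.coeff p.1 f : ℚ) : ℝ) *
          ((PowerSeries.coeff p.2 g : ℚ) : ℝ)|) * r ^ n := by gcongr
      _ = _ := by
          rw [Finset.sum_mul]
          refine Finset.sum_congr rfl fun p hp => ?_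
          rw [← Finset.HasAntidiagonal.mem_antidiagonal.1 hp, abs_mul, pow_add]
          ring
  refine (Finset.sum_le_sum h1).trans ?_
  rw [Finset.sum_mul_sum, ← Finset.sum_product']
  rw [Finset.sum_sigma']
  have hinj : ∀ x ∈ (Finset.range N).sigma (fun n => Finset.HasAntidiagonal.antidiagonal n),
      ∀ y ∈ (Finset.range N).sigma (fun n => Finset.HasAntidiagonal.antidiagonal n), x.2 = y.2 → x = y := by
    rintro ⟨n, p⟩ hx ⟨m, q⟩ hy h
    simp only [Finset.mem_sigma, Finset.HasAntidiagonal.mem_antidiagonal] at hx hy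
    have h' : p = q := h
    subst h'
    have : n = m := by rw [← hx.2, ← hy.2]
    subst this
    rfl
  calc ∑ x ∈ (Finset.range N).sigma (fun n => Finset.HasAntidiagonal.antidiagonal n),
        (|((PowerSeries.coeff x.2.1 f : ℚ) : ℝ)| * r ^ x.2.1) *
          (|((PowerSeries.coeff x.2.2 g : ℚ) : ℝ)| * r ^ x.2.2)
      = ∑ y ∈ ((Finset.range N).sigma (fun n => Finset.HasAntidiagonal.antidiagonal n)).image (fun x => x.2),
        (|((PowerSeries.coeff y.1 f : ℚ) : ℝ)| * r ^ y.1) *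
          (|((PowerSeries.coeff y.2 g : ℚ) : ℝ)| * r ^ y.2) :=
        (Finset.sum_image (f := fun y : ℕ × ℕ => (|((PowerSeries.coeff y.1 f : ℚ) : ℝ)| * r ^ y.1) *
          (|((PowerSeries.coeff y.2 g : ℚ) : ℝ)| * r ^ y.2))
          (g := fun x : (_ : ℕ) × ℕ × ℕ => x.2) (fun x hx y hy h => hinj x hx y hy h)).symm
    _ ≤ _ := by
        apply Finset.sum_le_sum_of_subset_of_nonneg
        · intro y hy
          obtain ⟨x, hx, rfl⟩ := Finset.mem_image.1 hy
          simp only [Finset.mem_sigma, Finset.HasAntidiagonal.mem_antidiagonal, Finset.mem_range] at hx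
          rw [Finset.mem_product, Finset.mem_range, Finset.mem_range]
          constructor <;> omega
        · intro y _ _
          positivity

theorem S3_geom (M : ℕ) : ∑ n ∈ Finset.range M, (1 / 2 : ℝ) ^ (n + 1) = 1 - (1 / 2) ^ M := by
  induction M with
  | zero => simp
  | succ M ih => rw [Finset.sum_range_succ, ih]; ring

theorem S3_bs (d : ℕ) (hd : 1 ≤ d) (u : ℤ) {r : ℝ} (hr : 0 ≤ r) (hu : |(u : ℝ)| * r ≤ 1 / 2)
    (N : ℕ) : S3_s (bs d u) r N ≤ 1 + 1 / (d : ℝ) := by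
  have hd0 : (0 : ℝ) < d := by exact_mod_cast hd
  rcases N with _ | M
  · unfold S3_s
    simp only [Finset.range_zero, Finset.sum_empty]
    positivity
  · unfold S3_s
    rw [Finset.sum_range_succ']
    have h0 : |((PowerSeries.coeff 0 (bs d u) : ℚ) : ℝ)| * r ^ 0 = 1 := by
      simp [bs]
    rw [h0, add_comm]
    gcongr
    have h1 : ∀ n ∈ Finset.range M, |((PowerSeries.coeff (n + 1) (bs d u) : ℚ) : ℝ)| * r ^ (n + 1) ≤
        1 / (d : ℝ) * (1 / 2) ^ (n + 1) := by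
      intro n _
      have h2 := choose_le d (n + 1) hd (by omega)
      have h3 : |((Ring.choose (1 / (d : ℚ)) (n + 1) : ℚ) : ℝ)| ≤ 1 / (d : ℝ) := by
        have : ((|Ring.choose (1 / (d : ℚ)) (n + 1)| : ℚ) : ℝ) ≤ ((1 / (d : ℚ) : ℚ) : ℝ) := by
          exact_mod_cast h2
        rw [Rat.cast_abs] at this
        simpa using this
      have h4 : |((PowerSeries.coeff (n + 1) (bs d u) : ℚ) : ℝ)| =
          |((Ring.choose (1 / (d : ℚ)) (n + 1) : ℚ) : ℝ)| * |(u : ℝ)| ^ (n + 1) := by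
        rw [bs, PowerSeries.coeff_mk]
        push_cast
        rw [abs_mul, abs_pow]
      rw [h4, mul_assoc, ← mul_pow]
      gcongr
    refine (Finset.sum_le_sum h1).trans ?_
    rw [← Finset.mul_sum, S3_geom]
    have h5 : (0 : ℝ) ≤ (1 / 2) ^ M := by positivity
    calc 1 / (d : ℝ) * (1 - (1 / 2) ^ M) ≤ 1 / (d : ℝ) * 1 := by
          gcongr
          linarith
      _ = _ := mul_one _

theorem S3_prod (d : ℕ) (hd : 1 ≤ d) {r : ℝ} (hr : 0 ≤ r) (N m : ℕ) (u : ℕ → ℤ)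
    (hu : ∀ i, i < m → |(u i : ℝ)| * r ≤ 1 / 2) :
    S3_s (∏ i ∈ Finset.range m, bs d (u i)) r N ≤ (1 + 1 / (d : ℝ)) ^ m := by
  induction m with
  | zero =>
    unfold S3_s
    rw [Finset.prod_range_zero, pow_zero]
    rcases N with _ | M
    · simp
    · rw [Finset.sum_range_succ', Finset.sum_eq_zero]
      · simp
      · intro n _
        rw [PowerSeries.coeff_one, if_neg (by omega)]
        simp
  | succ m ih =>
    rw [Finset.prod_range_succ, pow_succ]
    refine (S3_mul _ _ hr N).trans ?_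
    exact mul_le_mul (ih fun i hi => hu i (by omega)) (S3_bs d hd (u m) hr (hu m (by omega)) N)
      (S3_nonneg _ hr N) (by positivity)

/-- ROW 4aq-S3 (uses choose_le, rt_abs). With weights `r^n`, `r = 1/(2k)`, `k = d l`: each factor has weighted `ℓ¹` norm at most
`1 + (1/d) ∑_{n≥1} 2^(-n) ≤ 1 + 1/d`; the norm of a product (finite sums) is at most the product; `(1+1/d)^(d l) ≤ 3^l`. -/
theorem bb_l1 (d l N : ℕ) (hd : 1 ≤ d) (hl : 1 ≤ l) :
    ∑ n ∈ Finset.range N, |(bb d l n : ℝ)| * (1 / (2 * ((d : ℝ) * l))) ^ n ≤ 3 ^ l := by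
  have hd0 : (0 : ℝ) < d := by exact_mod_cast hd
  have hl0 : (0 : ℝ) < l := by exact_mod_cast hl
  have hr : (0 : ℝ) ≤ 1 / (2 * ((d : ℝ) * l)) := by positivity
  have h1 := S3_prod d hd hr N (d * l) (fun i => -rt (d * l) i) (fun i hi => by
    have h2 := rt_abs (d * l) i hi
    push_cast at h2 ⊢
    rw [abs_neg]
    rw [mul_one_div, div_le_div_iff₀ (by positivity) (by norm_num)]
    linarith)
  have h2 : ∑ n ∈ Finset.range N, |(bb d l n : ℝ)| * (1 / (2 * ((d : ℝ) * l))) ^ n =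
      S3_s (∏ i ∈ Finset.range (d * l), bs d (-rt (d * l) i)) (1 / (2 * ((d : ℝ) * l))) N := rfl
  rw [h2]
  refine h1.trans ?_
  rw [pow_mul]
  have h3 : (1 + 1 / (d : ℝ)) ^ d ≤ 3 := by
    have h4 : 1 + 1 / (d : ℝ) ≤ Real.exp (1 / (d : ℝ)) := by
      rw [add_comm]
      exact Real.add_one_le_exp _
    calc (1 + 1 / (d : ℝ)) ^ d ≤ (Real.exp (1 / (d : ℝ))) ^ d := by gcongr
      _ = Real.exp 1 := by
          rw [← Real.exp_nat_mul]
          congr 1
          field_simp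
      _ ≤ 3 := by
          have := Real.exp_one_lt_d9
          linarith
  gcongr

end Rng
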