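import Pool.Agent.Lib.MP_4ae430_nt.Q.Defs
import Pool.Agent.Lib.MP_4ae430_nt.Q.S1b

set_option autoImplicit false

namespace Rng

/-- the binomial series for one factor -/
theorem S4_one (d : ℕ) (u : ℤ) (ζ : ℂ) (h : ‖(u : ℂ) * ζ‖ < 1) :
    HasSum (fun n => ((PowerSeries.coeff n (bs d u) : ℚ) : ℂ) * ζ ^ n)
      ((1 + (u : ℂ) * ζ) ^ (1 / (d : ℂ))) := by
  have h1 := (Complex.one_add_cpow_hasFPowerSeriesOnBall_zero (a := 1 / (d : ℂ))).hasSum
    (y := (u : ℂ) * ζ) (by
      rw [Metric.mem_eball, edist_zero_right, ← ofReal_norm, ENNReal.ofReal_lt_one]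
      exact h)
  rw [zero_add] at h1
  refine h1.congr_fun ?_ |> fun h2 => h2
  intro n
  rw [binomialSeries_apply]
  have h3 : Ring.choose (1 / (d : ℂ)) n = ((Ring.choose (1 / (d : ℚ)) n : ℚ) : ℂ) := by
    have h4 := Ring.map_choose (algebraMap ℚ ℂ) (1 / (d : ℚ)) n
    rw [map_div₀, map_one, map_natCast] at h4
    exact h4.symm
  rw [h3]
  simp [bs, PowerSeries.coeff_mk, mul_pow, List.ofFn_const, List.prod_replicate]
  ring

theorem S4_prod (d k : ℕ) (ζ : ℂ) (s : Finset ℕ)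
    (h : ∀ i ∈ s, ‖(rt k i : ℂ) * ζ‖ < 1) :
    HasSum (fun n => ((PowerSeries.coeff n (∏ i ∈ s, bs d (-rt k i)) : ℚ) : ℂ) * ζ ^ n)
      (∏ i ∈ s, (1 - (rt k i : ℂ) * ζ) ^ (1 / (d : ℂ))) := by
  classical
  induction s using Finset.induction_on with
  | empty =>
    simp only [Finset.prod_empty]
    have h1 := hasSum_ite_eq (0 : ℕ) (1 : ℂ)
    refine h1.congr_fun ?_ |> fun h2 => h2
    intro n
    rw [PowerSeries.coeff_one]
    by_cases hn : n = 0
    · simp [hn]
    · simp [hn]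
  | insert a s ha ih =>
    rw [Finset.prod_insert ha, Finset.prod_insert ha]
    have h1 := S4_one d (-rt k a) ζ (by
      have := h a (Finset.mem_insert_self a s)
      simpa using this)
    have h2 := ih (fun i hi => h i (Finset.mem_insert_of_mem hi))
    have h3 := summable_norm_iff.mpr h1.summable
    have h4 := summable_norm_iff.mpr h2.summable
    have h5 := tsum_mul_tsum_eq_tsum_sum_antidiagonal_of_summable_norm h3 h4
    rw [h1.tsum_eq, h2.tsum_eq] at h5
    have h6 := (summable_norm_sum_mul_antidiagonal_of_summable_norm h3 h4).of_norm.hasSum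
    rw [← h5] at h6
    have h7 : (1 + ((-rt k a : ℤ) : ℂ) * ζ) = 1 - (rt k a : ℂ) * ζ := by
      push_cast; ring
    rw [h7] at h6
    refine h6.congr_fun ?_ |> fun h2 => h2
    intro n
    rw [PowerSeries.coeff_mul]
    push_cast
    rw [Finset.sum_mul]
    refine Finset.sum_congr rfl ?_
    intro p hp
    rw [← Finset.HasAntidiagonal.mem_antidiagonal.mp hp, pow_add]
    ring

/-- ROW 4aq-S4. Binomial series (Mathlib: Complex `one_add_cpow_hasFPowerSeriesOnBall_zero`) for each factor, `|rt ζ| ≤ 1/2`; the product of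
absolutely convergent series is the Cauchy product = product of power series (induction on the number of factors). -/
theorem bb_hasSum (d l : ℕ) (hd : 1 ≤ d) (ζ : ℂ) (hζ : ‖ζ‖ * (2 * ((d : ℝ) * l)) ≤ 1) :
    HasSum (fun n => (bb d l n : ℂ) * ζ ^ n)
      (∏ i ∈ Finset.range (d * l), (1 - (rt (d * l) i : ℂ) * ζ) ^ (1 / (d : ℂ))) := by
  refine S4_prod d (d * l) ζ (Finset.range (d * l)) ?_
  intro i hi
  have h1 := rt_abs (d * l) i (Finset.mem_range.mp hi)
  rw [norm_mul, Complex.norm_intCast]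
  push_cast at h1
  have h0 : 0 ≤ ‖ζ‖ := norm_nonneg ζ
  have h2 : |((rt (d * l) i : ℤ) : ℝ)| * ‖ζ‖ ≤ ((d : ℝ) * l) * ‖ζ‖ := by
    refine mul_le_mul_of_nonneg_right ?_ h0
    linarith
  nlinarith
end Rng
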