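import Pool.Agent.Lib.MP_4ae430_nt.Q.S3
import Pool.Agent.Lib.MP_4ae430_nt.Q.S4

set_option autoImplicit false

namespace Rng

/-- one block of the tail -/
theorem S6_block (d l N M : ℕ) (hd : 1 ≤ d) (hl : 1 ≤ l) (hNM : N ≤ M) (ζ : ℂ)
    (hζ : ‖ζ‖ * (2 * ((d : ℝ) * l)) ≤ 1) :
    ‖(∑ n ∈ Finset.range M, (bb d l n : ℂ) * ζ ^ n) -
      ∑ n ∈ Finset.range N, (bb d l n : ℂ) * ζ ^ n‖ ≤ 3 ^ l * (‖ζ‖ * (2 * ((d : ℝ) * l))) ^ N := by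
  have hd' : (0 : ℝ) < d := by exact_mod_cast hd
  have hl' : (0 : ℝ) < l := by exact_mod_cast hl
  have hk : (0 : ℝ) < 2 * ((d : ℝ) * l) := by positivity
  have hx0 : 0 ≤ ‖ζ‖ * (2 * ((d : ℝ) * l)) := by positivity
  have h1 : (∑ n ∈ Finset.range M, (bb d l n : ℂ) * ζ ^ n) -
      ∑ n ∈ Finset.range N, (bb d l n : ℂ) * ζ ^ n =
      ∑ n ∈ Finset.Ico N M, (bb d l n : ℂ) * ζ ^ n := by
    rw [Finset.sum_Ico_eq_sub _ hNM]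
  rw [h1]
  have h2 : ∀ n ∈ Finset.Ico N M, ‖(bb d l n : ℂ) * ζ ^ n‖ ≤
      (|(bb d l n : ℝ)| * (1 / (2 * ((d : ℝ) * l))) ^ n) * (‖ζ‖ * (2 * ((d : ℝ) * l))) ^ N := by
    intro n hn
    have hn' := (Finset.mem_Ico.1 hn).1
    have e1 : ‖(bb d l n : ℂ)‖ = |(bb d l n : ℝ)| := by
      have : ((bb d l n : ℚ) : ℂ) = (((bb d l n : ℚ) : ℝ) : ℂ) := by push_cast; rfl
      rw [this, Complex.norm_real, Real.norm_eq_abs]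
    have e2 : ‖ζ‖ ^ n = (1 / (2 * ((d : ℝ) * l))) ^ n * (‖ζ‖ * (2 * ((d : ℝ) * l))) ^ n := by
      rw [← mul_pow]
      congr 1
      field_simp
    rw [norm_mul, norm_pow, e1, e2, ← mul_assoc]
    have h3 : (‖ζ‖ * (2 * ((d : ℝ) * l))) ^ n ≤ (‖ζ‖ * (2 * ((d : ℝ) * l))) ^ N :=
      pow_le_pow_of_le_one hx0 hζ hn'
    exact mul_le_mul_of_nonneg_left h3 (by positivity)
  refine (norm_sum_le _ _).trans ((Finset.sum_le_sum h2).trans ?_)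
  rw [← Finset.sum_mul]
  refine mul_le_mul_of_nonneg_right ?_ (pow_nonneg hx0 N)
  refine le_trans ?_ (bb_l1 d l M hd hl)
  refine Finset.sum_le_sum_of_subset_of_nonneg ?_ ?_
  · intro n hn
    exact Finset.mem_range.2 (Finset.mem_Ico.1 hn).2
  · intro n _ _
    positivity

/-- ROW 4aq-S6 (uses bb_l1, bb_hasSum). Tail `∑_{n≥N} |bb n| |ζ|^n ≤ (2k|ζ|)^N ∑ |bb n| (2k)^(-n)`. -/
theorem tail (d l N : ℕ) (hd : 1 ≤ d) (hl : 1 ≤ l) (ζ : ℂ) (hζ : ‖ζ‖ * (2 * ((d : ℝ) * l)) ≤ 1) :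
    ‖(∏ i ∈ Finset.range (d * l), (1 - (rt (d * l) i : ℂ) * ζ) ^ (1 / (d : ℂ))) -
      ∑ n ∈ Finset.range N, (bb d l n : ℂ) * ζ ^ n‖ ≤ 3 ^ l * (‖ζ‖ * (2 * ((d : ℝ) * l))) ^ N := by
  have h1 := (bb_hasSum d l hd ζ hζ).tendsto_sum_nat
  have h2 := (h1.sub_const (∑ n ∈ Finset.range N, (bb d l n : ℂ) * ζ ^ n)).norm
  refine le_of_tendsto h2 ?_
  filter_upwards [Filter.eventually_ge_atTop N] with M hM
  exact S6_block d l N M hd hl hM ζ hζ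

end Rng
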